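import Pool.Agent.R218.GEq.Defs

namespace Pool.Agent.R218.GEq

open Set Filter Topology

/-- the penalization `√(1+|X|²)` -/
noncomputable def rho (X : V3) : ℝ := Real.sqrt (1 + (X 0 ^ 2 + X 1 ^ 2 + X 2 ^ 2))

lemma rho_pos (X : V3) : 0 < rho X := Real.sqrt_pos.mpr (by positivity)

lemma contDiff_rho : ContDiff ℝ 2 rho := by
  unfold rho
  apply ContDiff.sqrt
  · fun_prop
  · intro X
    positivity

lemma norm_le_rho (X : V3) : ‖X‖ ≤ rho X := by
  rw [pi_norm_le_iff_of_nonneg (rho_pos X).le]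
  intro i
  unfold rho
  apply Real.le_sqrt_of_sq_le
  rw [Real.norm_eq_abs, sq_abs]
  fin_cases i <;> simp <;> nlinarith [sq_nonneg (X 0), sq_nonneg (X 1), sq_nonneg (X 2)]

lemma rho_zero : rho 0 = 1 := by simp [rho]

lemma pd_add_const (h : V3 → ℝ) (c : ℝ) (X : V3) : pd (fun Y => h Y + c) X = pd h X := by
  funext i
  unfold pd
  exact deriv_add_const c

lemma sec_add_const (h : V3 → ℝ) (c : ℝ) (X e : V3) : sec (fun Y => h Y + c) X e = sec h X e := by
  unfold sec
  simp only [iteratedDeriv_succ, iteratedDeriv_zero]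
  congr 1
  funext s
  exact deriv_add_const c

lemma curvOp_add_const (d : ℝ) (h : V3 → ℝ) (c : ℝ) (X e : V3) :
    curvOp d (fun Y => h Y + c) X e = curvOp d h X e := by
  unfold curvOp
  rw [pd_add_const, sec_add_const, sec_add_const, sec_add_const, sec_add_const]

lemma isNormal_add_const (h : V3 → ℝ) (c : ℝ) (X e : V3) :
    IsNormal (fun Y => h Y + c) X e ↔ IsNormal h X e := by
  unfold IsNormal
  rw [pd_add_const]

lemma deriv_time {H lam μ T : ℝ} {n : ℕ} (a b : ℝ) (t : ℝ) :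
    deriv (fun s : ℝ => a + b + (-(H * s) + lam * s + μ * (s / T) ^ (n + 1))) t =
      -H + lam + μ * (((n : ℝ) + 1) * (t / T) ^ n * (1 / T)) := by
  have h1 : HasDerivAt (fun s : ℝ => a + b + (-(H * s) + lam * s + μ * (s / T) ^ (n + 1)))
      (-(H * 1) + lam * 1 + μ * ((((n + 1 : ℕ) : ℝ)) * (t / T) ^ (n + 1 - 1) * (1 / T))) t := by
    apply HasDerivAt.const_add
    exact (((hasDerivAt_id t).const_mul H).neg.add ((hasDerivAt_id t).const_mul lam)).add
      ((((hasDerivAt_id t).div_const T).pow (n + 1)).const_mul μ)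
  rw [h1.deriv]
  push_cast
  simp

/-- Comparison with a smooth supersolution. -/
lemma upper_of {d A : ℝ} {f : ℝ → ℝ → ℝ} {P : V3} {G : V3 → ℝ → ℝ} (hG : ViscSol d A f P G)
    {Ψ : V3 → ℝ} (hΨ : ContDiff ℝ 2 Ψ) {C : ℝ} (hC : ∀ X, |Ψ X - dotp P X| ≤ C)
    {H L ε0 : ℝ} (hL : 0 ≤ L) (hε0 : 0 < ε0)
    (key : ∀ ε, 0 < ε → ε < ε0 → ∀ X e, IsNormal (fun Y => Ψ Y + ε * rho Y) X e →
      -(L * ε) ≤ -H + curvOp d (fun Y => Ψ Y + ε * rho Y) X e
        + A * f (X 0) (X 1) * pd (fun Y => Ψ Y + ε * rho Y) X 2) :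
    ∀ X t, 0 ≤ t → G X t ≤ Ψ X - H * t + C := by
  intro X1 t1 ht1
  set T := t1 + 1 with hT
  have hT0 : 0 < T := by linarith
  obtain ⟨B0, hB0⟩ := hG.bdd T
  have hC0 : 0 ≤ C := (abs_nonneg _).trans (hC 0)
  have hB00 : 0 ≤ B0 := (abs_nonneg _).trans (hB0 0 0 le_rfl hT0.le)
  set B := B0 + C with hB
  have hGΨ : ∀ X t, 0 ≤ t → t ≤ T → |G X t - Ψ X| ≤ B := by
    intro X t h0 h1
    have e : G X t - Ψ X = (G X t - dotp P X) - (Ψ X - dotp P X) := by ring
    rw [e]
    exact (abs_sub _ _).trans (add_le_add (hB0 X t h0 h1) (hC X))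
  set μ := 2 * B + |H| * T + 2 with hμ
  have hμ0 : 0 ≤ μ := by positivity
  -- the main inequality for each small `ε` and each `n`
  have main : ∀ ε, 0 < ε → ε < min ε0 1 → ∀ n : ℕ,
      G X1 t1 ≤ Ψ X1 - H * t1 + C + ε * (rho X1 + (L + 1) * t1) + μ * (t1 / T) ^ (n + 1) := by
    intro ε hε hε1 n
    have hεa : ε < ε0 := lt_of_lt_of_le hε1 (min_le_left _ _)
    have hεb : ε < 1 := lt_of_lt_of_le hε1 (min_le_right _ _)
    set lam := (L + 1) * ε with hlam
    have hlam0 : 0 < lam := by positivity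
    set φ : V3 → ℝ → ℝ := fun X t =>
      Ψ X + ε * rho X + (-(H * t) + lam * t + μ * (t / T) ^ (n + 1)) with hφ
    have hφC : TestFun φ := by
      unfold TestFun
      rw [hφ]
      have h1 : ContDiff ℝ 2 (fun q : V3 × ℝ => Ψ q.1) := hΨ.comp contDiff_fst
      have h2 : ContDiff ℝ 2 (fun q : V3 × ℝ => rho q.1) := contDiff_rho.comp contDiff_fst
      fun_prop
    set R := (μ + 1) / ε with hR
    have hR0 : 0 < R := by positivity
    have hKc : IsCompact ((Metric.closedBall (0 : V3) R) ×ˢ Icc 0 T) :=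
      (isCompact_closedBall 0 R).prod isCompact_Icc
    have hcont : ContinuousOn (fun q : V3 × ℝ => G q.1 q.2 - φ q.1 q.2)
        ((Metric.closedBall (0 : V3) R) ×ˢ Icc 0 T) :=
      (hG.cont.mono (fun q hq => hq.2.1)).sub hφC.continuous.continuousOn
    have h0mem : ((0 : V3), (0:ℝ)) ∈ (Metric.closedBall (0 : V3) R) ×ˢ Icc 0 T :=
      ⟨Metric.mem_closedBall_self hR0.le, le_rfl, hT0.le⟩
    obtain ⟨q0, hq0, hmax⟩ := hKc.exists_isMaxOn ⟨_, h0mem⟩ hcont
    have hΘ0 : -B - ε ≤ G 0 0 - φ 0 0 := by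
      have h1 := hGΨ 0 0 le_rfl hT0.le
      rw [abs_le] at h1
      rw [hφ]
      simp only [rho_zero, mul_zero, neg_zero, zero_div, add_zero, mul_one]
      rw [zero_pow (by omega)]
      linarith [h1.1]
    have hΘup : ∀ X t, 0 ≤ t → t ≤ T →
        G X t - φ X t ≤ B + |H| * T - ε * rho X - μ * (t / T) ^ (n + 1) := by
      intro X t h0 h1
      have h2 := hGΨ X t h0 h1
      rw [abs_le] at h2
      rw [hφ]
      have h3 : H * t ≤ |H| * T :=
        (mul_le_mul_of_nonneg_right (le_abs_self H) h0).trans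
          (mul_le_mul_of_nonneg_left h1 (abs_nonneg H))
      have h4 : 0 ≤ lam * t := by positivity
      simp only
      linarith [h2.2]
    have hpow : ∀ t, 0 ≤ t → 0 ≤ μ * (t / T) ^ (n + 1) := fun t ht => by positivity
    -- the maximum is global on `ℝ³ × [0,T]`
    have hglob : ∀ X t, 0 ≤ t → t ≤ T → G X t - φ X t ≤ G q0.1 q0.2 - φ q0.1 q0.2 := by
      intro X t h0 h1
      by_cases hX : X ∈ Metric.closedBall (0 : V3) R
      · exact hmax (show (X, t) ∈ _ from ⟨hX, h0, h1⟩)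
      · have h2 : R < rho X := by
          rw [mem_closedBall_zero_iff, not_le] at hX
          exact lt_of_lt_of_le hX (norm_le_rho X)
        have h3 : μ + 1 ≤ ε * rho X := by
          rw [hR, div_lt_iff₀ hε] at h2
          linarith
        have h4 := hΘup X t h0 h1
        have h5 := hpow t h0
        have h6 : G 0 0 - φ 0 0 ≤ G q0.1 q0.2 - φ q0.1 q0.2 := hmax h0mem
        linarith
    have hfin : G q0.1 q0.2 - φ q0.1 q0.2 ≤ C := by
      obtain ⟨hq1, hq2⟩ := hq0
      rcases eq_or_lt_of_le hq2.1 with h0 | h0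
      · -- initial time
        rw [← h0, hφ, hG.init]
        have h1 := hC q0.1
        rw [abs_le] at h1
        have h2 := rho_pos q0.1
        simp only [mul_zero, neg_zero, zero_div, add_zero]
        rw [zero_pow (by omega)]
        nlinarith [h1.1, mul_pos hε h2]
      · rcases eq_or_lt_of_le hq2.2 with hT' | hT'
        · exfalso
          have h1 := hΘup q0.1 q0.2 hq2.1 hq2.2
          rw [hT', div_self hT0.ne', one_pow, mul_one] at h1
          have h2 := rho_pos q0.1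
          have h3 : G 0 0 - φ 0 0 ≤ G q0.1 q0.2 - φ q0.1 q0.2 := hmax h0mem
          rw [hT'] at h3
          nlinarith [mul_pos hε h2]
        · exfalso
          have hloc : IsLocalMax (fun q : V3 × ℝ => G q.1 q.2 - φ q.1 q.2) (q0.1, q0.2) := by
            have hn : (univ : Set V3) ×ˢ Ioo 0 T ∈ 𝓝 (q0.1, q0.2) :=
              prod_mem_nhds univ_mem (Ioo_mem_nhds h0 hT')
            filter_upwards [hn] with q hq
            exact hglob q.1 q.2 hq.2.1.le hq.2.2.le
          obtain ⟨e, he, hle⟩ := hG.sub φ hφC q0.1 q0.2 h0 hloc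
          have e1 : (fun Y => φ Y q0.2) = fun Y => (fun Z => Ψ Z + ε * rho Z) Y +
              (-(H * q0.2) + lam * q0.2 + μ * (q0.2 / T) ^ (n + 1)) := rfl
          rw [e1, curvOp_add_const, pd_add_const] at hle
          rw [e1, isNormal_add_const] at he
          have h1 := key ε hε hεa q0.1 e he
          have e2 : deriv (fun s => φ q0.1 s) q0.2 = _ := deriv_time (Ψ q0.1) (ε * rho q0.1) q0.2
          rw [e2] at hle
          have h2 : 0 ≤ μ * (((n : ℝ) + 1) * (q0.2 / T) ^ n * (1 / T)) := by positivity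
          nlinarith
    have h1 := (hglob X1 t1 ht1 (by linarith)).trans hfin
    rw [hφ] at h1
    simp only at h1
    rw [hlam] at h1
    linarith
  -- let `n → ∞`, then `ε → 0`
  have hlt : t1 / T < 1 := by rw [div_lt_one hT0]; linarith
  have hnn : 0 ≤ t1 / T := by positivity
  have main2 : ∀ ε, 0 < ε → ε < min ε0 1 →
      G X1 t1 ≤ Ψ X1 - H * t1 + C + ε * (rho X1 + (L + 1) * t1) := by
    intro ε h1 h2
    have h3 : Tendsto (fun n : ℕ => Ψ X1 - H * t1 + C + ε * (rho X1 + (L + 1) * t1) +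
        μ * (t1 / T) ^ (n + 1)) atTop
        (𝓝 (Ψ X1 - H * t1 + C + ε * (rho X1 + (L + 1) * t1) + μ * 0)) := by
      apply Tendsto.const_add
      apply Tendsto.const_mul
      exact (tendsto_pow_atTop_nhds_zero_of_lt_one hnn hlt).comp (tendsto_add_atTop_nat 1)
    have h4 := ge_of_tendsto' h3 (fun n => main ε h1 h2 n)
    linarith
  have h5 : Tendsto (fun ε : ℝ => Ψ X1 - H * t1 + C + ε * (rho X1 + (L + 1) * t1)) (𝓝[>] 0)
      (𝓝 (Ψ X1 - H * t1 + C + 0 * (rho X1 + (L + 1) * t1))) := by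
    apply tendsto_nhdsWithin_of_tendsto_nhds
    exact (Continuous.tendsto (by fun_prop) 0)
  have h6 : ∀ᶠ ε : ℝ in 𝓝[>] 0, G X1 t1 ≤ Ψ X1 - H * t1 + C + ε * (rho X1 + (L + 1) * t1) := by
    have : Ioo (0:ℝ) (min ε0 1) ∈ 𝓝[>] (0:ℝ) := Ioo_mem_nhdsGT (lt_min hε0 one_pos)
    filter_upwards [this] with ε hε
    exact main2 ε hε.1 hε.2
  have h7 := ge_of_tendsto h5 h6
  linarith

/-- Comparison with a smooth subsolution. -/
lemma lower_of {d A : ℝ} {f : ℝ → ℝ → ℝ} {P : V3} {G : V3 → ℝ → ℝ} (hG : ViscSol d A f P G)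
    {Ψ : V3 → ℝ} (hΨ : ContDiff ℝ 2 Ψ) {C : ℝ} (hC : ∀ X, |Ψ X - dotp P X| ≤ C)
    {H L ε0 : ℝ} (hL : 0 ≤ L) (hε0 : 0 < ε0)
    (key : ∀ ε, 0 < ε → ε < ε0 → ∀ X e, IsNormal (fun Y => Ψ Y + -ε * rho Y) X e →
      -H + curvOp d (fun Y => Ψ Y + -ε * rho Y) X e
        + A * f (X 0) (X 1) * pd (fun Y => Ψ Y + -ε * rho Y) X 2 ≤ L * ε) :
    ∀ X t, 0 ≤ t → Ψ X - H * t - C ≤ G X t := by
  intro X1 t1 ht1
  set T := t1 + 1 with hT
  have hT0 : 0 < T := by linarith
  obtain ⟨B0, hB0⟩ := hG.bdd T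
  have hC0 : 0 ≤ C := (abs_nonneg _).trans (hC 0)
  have hB00 : 0 ≤ B0 := (abs_nonneg _).trans (hB0 0 0 le_rfl hT0.le)
  set B := B0 + C with hB
  have hGΨ : ∀ X t, 0 ≤ t → t ≤ T → |G X t - Ψ X| ≤ B := by
    intro X t h0 h1
    have e : G X t - Ψ X = (G X t - dotp P X) - (Ψ X - dotp P X) := by ring
    rw [e]
    exact (abs_sub _ _).trans (add_le_add (hB0 X t h0 h1) (hC X))
  set μ := 2 * B + |H| * T + 2 with hμ
  have hμ0 : 0 ≤ μ := by positivity
  have main : ∀ ε, 0 < ε → ε < min ε0 1 → ∀ n : ℕ,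
      Ψ X1 - H * t1 - C - ε * (rho X1 + (L + 1) * t1) - μ * (t1 / T) ^ (n + 1) ≤ G X1 t1 := by
    intro ε hε hε1 n
    have hεa : ε < ε0 := lt_of_lt_of_le hε1 (min_le_left _ _)
    have hεb : ε < 1 := lt_of_lt_of_le hε1 (min_le_right _ _)
    set lam := (L + 1) * ε with hlam
    have hlam0 : 0 < lam := by positivity
    set φ : V3 → ℝ → ℝ := fun X t =>
      Ψ X + -ε * rho X + (-(H * t) + -lam * t + -μ * (t / T) ^ (n + 1)) with hφ
    have hφC : TestFun φ := by
      unfold TestFun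
      rw [hφ]
      have h1 : ContDiff ℝ 2 (fun q : V3 × ℝ => Ψ q.1) := hΨ.comp contDiff_fst
      have h2 : ContDiff ℝ 2 (fun q : V3 × ℝ => rho q.1) := contDiff_rho.comp contDiff_fst
      fun_prop
    set R := (μ + 1) / ε with hR
    have hR0 : 0 < R := by positivity
    have hKc : IsCompact ((Metric.closedBall (0 : V3) R) ×ˢ Icc 0 T) :=
      (isCompact_closedBall 0 R).prod isCompact_Icc
    have hcont : ContinuousOn (fun q : V3 × ℝ => G q.1 q.2 - φ q.1 q.2)
        ((Metric.closedBall (0 : V3) R) ×ˢ Icc 0 T) :=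
      (hG.cont.mono (fun q hq => hq.2.1)).sub hφC.continuous.continuousOn
    have h0mem : ((0 : V3), (0:ℝ)) ∈ (Metric.closedBall (0 : V3) R) ×ˢ Icc 0 T :=
      ⟨Metric.mem_closedBall_self hR0.le, le_rfl, hT0.le⟩
    obtain ⟨q0, hq0, hmin⟩ := hKc.exists_isMinOn ⟨_, h0mem⟩ hcont
    have hΘ0 : G 0 0 - φ 0 0 ≤ B + ε := by
      have h1 := hGΨ 0 0 le_rfl hT0.le
      rw [abs_le] at h1
      rw [hφ]
      simp only [rho_zero, mul_zero, neg_zero, zero_div, add_zero, mul_one]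
      rw [zero_pow (by omega)]
      linarith [h1.2]
    have hΘup : ∀ X t, 0 ≤ t → t ≤ T →
        -B - |H| * T + ε * rho X + μ * (t / T) ^ (n + 1) ≤ G X t - φ X t := by
      intro X t h0 h1
      have h2 := hGΨ X t h0 h1
      rw [abs_le] at h2
      rw [hφ]
      have h3 : -(|H| * T) ≤ H * t := by
        have : -|H| * t ≤ H * t := mul_le_mul_of_nonneg_right (neg_abs_le H) h0
        have h4 : |H| * t ≤ |H| * T := mul_le_mul_of_nonneg_left h1 (abs_nonneg H)
        linarith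
      have h4 : 0 ≤ lam * t := by positivity
      simp only
      linarith [h2.1]
    have hpow : ∀ t, 0 ≤ t → 0 ≤ μ * (t / T) ^ (n + 1) := fun t ht => by positivity
    have hglob : ∀ X t, 0 ≤ t → t ≤ T → G q0.1 q0.2 - φ q0.1 q0.2 ≤ G X t - φ X t := by
      intro X t h0 h1
      by_cases hX : X ∈ Metric.closedBall (0 : V3) R
      · exact hmin (show (X, t) ∈ _ from ⟨hX, h0, h1⟩)
      · have h2 : R < rho X := by
          rw [mem_closedBall_zero_iff, not_le] at hX
          exact lt_of_lt_of_le hX (norm_le_rho X)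
        have h3 : μ + 1 ≤ ε * rho X := by
          rw [hR, div_lt_iff₀ hε] at h2
          linarith
        have h4 := hΘup X t h0 h1
        have h5 := hpow t h0
        have h6 : G q0.1 q0.2 - φ q0.1 q0.2 ≤ G 0 0 - φ 0 0 := hmin h0mem
        linarith
    have hfin : -C ≤ G q0.1 q0.2 - φ q0.1 q0.2 := by
      obtain ⟨hq1, hq2⟩ := hq0
      rcases eq_or_lt_of_le hq2.1 with h0 | h0
      · rw [← h0, hφ, hG.init]
        have h1 := hC q0.1
        rw [abs_le] at h1
        have h2 := rho_pos q0.1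
        simp only [mul_zero, neg_zero, zero_div, add_zero]
        rw [zero_pow (by omega)]
        nlinarith [h1.2, mul_pos hε h2]
      · rcases eq_or_lt_of_le hq2.2 with hT' | hT'
        · exfalso
          have h1 := hΘup q0.1 q0.2 hq2.1 hq2.2
          rw [hT', div_self hT0.ne', one_pow, mul_one] at h1
          have h2 := rho_pos q0.1
          have h3 : G q0.1 q0.2 - φ q0.1 q0.2 ≤ G 0 0 - φ 0 0 := hmin h0mem
          rw [hT'] at h3
          nlinarith [mul_pos hε h2]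
        · exfalso
          have hloc : IsLocalMin (fun q : V3 × ℝ => G q.1 q.2 - φ q.1 q.2) (q0.1, q0.2) := by
            have hn : (univ : Set V3) ×ˢ Ioo 0 T ∈ 𝓝 (q0.1, q0.2) :=
              prod_mem_nhds univ_mem (Ioo_mem_nhds h0 hT')
            filter_upwards [hn] with q hq
            exact hglob q.1 q.2 hq.2.1.le hq.2.2.le
          obtain ⟨e, he, hle⟩ := hG.super φ hφC q0.1 q0.2 h0 hloc
          have e1 : (fun Y => φ Y q0.2) = fun Y => (fun Z => Ψ Z + -ε * rho Z) Y +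
              (-(H * q0.2) + -lam * q0.2 + -μ * (q0.2 / T) ^ (n + 1)) := rfl
          rw [e1, curvOp_add_const, pd_add_const] at hle
          rw [e1, isNormal_add_const] at he
          have h1 := key ε hε hεa q0.1 e he
          have e2 : deriv (fun s => φ q0.1 s) q0.2 = _ := deriv_time (Ψ q0.1) (-ε * rho q0.1) q0.2
          rw [e2] at hle
          have h2 : 0 ≤ μ * (((n : ℝ) + 1) * (q0.2 / T) ^ n * (1 / T)) := by positivity
          nlinarith
    have h1 := hfin.trans (hglob X1 t1 ht1 (by linarith))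
    rw [hφ] at h1
    simp only at h1
    rw [hlam] at h1
    linarith
  have hlt : t1 / T < 1 := by rw [div_lt_one hT0]; linarith
  have hnn : 0 ≤ t1 / T := by positivity
  have main2 : ∀ ε, 0 < ε → ε < min ε0 1 →
      Ψ X1 - H * t1 - C - ε * (rho X1 + (L + 1) * t1) ≤ G X1 t1 := by
    intro ε h1 h2
    have h3 : Tendsto (fun n : ℕ => Ψ X1 - H * t1 - C - ε * (rho X1 + (L + 1) * t1) -
        μ * (t1 / T) ^ (n + 1)) atTop
        (𝓝 (Ψ X1 - H * t1 - C - ε * (rho X1 + (L + 1) * t1) - μ * 0)) := by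
      apply Tendsto.const_sub
      apply Tendsto.const_mul
      exact (tendsto_pow_atTop_nhds_zero_of_lt_one hnn hlt).comp (tendsto_add_atTop_nat 1)
    have h4 := le_of_tendsto' h3 (fun n => main ε h1 h2 n)
    linarith
  have h5 : Tendsto (fun ε : ℝ => Ψ X1 - H * t1 - C - ε * (rho X1 + (L + 1) * t1)) (𝓝[>] 0)
      (𝓝 (Ψ X1 - H * t1 - C - 0 * (rho X1 + (L + 1) * t1))) := by
    apply tendsto_nhdsWithin_of_tendsto_nhds
    exact (Continuous.tendsto (by fun_prop) 0)
  have h6 : ∀ᶠ ε : ℝ in 𝓝[>] 0, Ψ X1 - H * t1 - C - ε * (rho X1 + (L + 1) * t1) ≤ G X1 t1 := by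
    have : Ioo (0:ℝ) (min ε0 1) ∈ 𝓝[>] (0:ℝ) := Ioo_mem_nhdsGT (lt_min hε0 one_pos)
    filter_upwards [this] with ε hε
    exact main2 ε hε.1 hε.2
  have h7 := le_of_tendsto h5 h6
  linarith

end Pool.Agent.R218.GEq
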