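import Mathlib

/-!
# The curvature G-equation with a shear flow: definitions

Points of `ℝ³` are functions `X : Fin 3 → ℝ`, with `X 0, X 1` the horizontal and `X 2` the vertical
coordinate.
-/

namespace Pool.Agent.R218.GEq

open Set Filter Topology

/-- `ℝ³` -/
abbrev V3 := Fin 3 → ℝ

/-- Euclidean norm of a vector of `ℝ³`. -/
noncomputable def nrm (p : V3) : ℝ := Real.sqrt (p 0 ^ 2 + p 1 ^ 2 + p 2 ^ 2)

/-- Scalar product. -/
def dotp (p q : V3) : ℝ := p 0 * q 0 + p 1 * q 1 + p 2 * q 2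

/-- `i`-th partial derivative in space. -/
noncomputable def pd (φ : V3 → ℝ) (X : V3) (i : Fin 3) : ℝ :=
  deriv (fun s : ℝ => φ (X + s • (Pi.single i 1 : V3))) 0

/-- Second derivative of `φ` at `X` in direction `e`, that is `⟨D²φ(X) e, e⟩`. -/
noncomputable def sec (φ : V3 → ℝ) (X e : V3) : ℝ :=
  iteratedDeriv 2 (fun s : ℝ => φ (X + s • e)) 0

/-- The operator `(|p| - d tr((I - e ⊗ e) D²φ))₊` with `p = Dφ(X)`, for a unit vector `e`.  When
`p ≠ 0` and `e = p/|p|` this is `(1 - d div(Dφ/|Dφ|))₊ |Dφ|`. -/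
noncomputable def curvOp (d : ℝ) (φ : V3 → ℝ) (X e : V3) : ℝ :=
  max (nrm (pd φ X) - d * ((sec φ X (Pi.single 0 1) + sec φ X (Pi.single 1 1)
    + sec φ X (Pi.single 2 1)) - sec φ X e)) 0

/-- `e` is a unit vector with `Dφ(X) = |Dφ(X)| e` (it is `Dφ/|Dφ|` if `Dφ(X) ≠ 0`, and arbitrary
otherwise). -/
def IsNormal (φ : V3 → ℝ) (X e : V3) : Prop :=
  nrm e = 1 ∧ ∀ i, pd φ X i = nrm (pd φ X) * e i

/-- The space-time function `(X,t) ↦ φ X t` is `C²`. -/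
def TestFun (φ : V3 → ℝ → ℝ) : Prop := ContDiff ℝ 2 (fun q : V3 × ℝ => φ q.1 q.2)

/-- Viscosity solutions of
`G_t + (1 - d div(DG/|DG|))₊ |DG| + A f(x) G_{x₃} = 0` in `ℝ³ × (0,∞)`, `G(X,0) = P · X`.
At points with `Dφ = 0` the lower (for subsolutions) and upper (for supersolutions) semicontinuous
envelopes of the operator are the minimum and the maximum over unit vectors `e`, whence the
existential quantifier over `e`.  The class is the usual one: `G - P · X` is bounded on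
`ℝ³ × [0,T]` for each `T`. -/
structure ViscSol (d A : ℝ) (f : ℝ → ℝ → ℝ) (P : V3) (G : V3 → ℝ → ℝ) : Prop where
  cont : ContinuousOn (fun q : V3 × ℝ => G q.1 q.2) {q | 0 ≤ q.2}
  init : ∀ X, G X 0 = dotp P X
  bdd : ∀ T, ∃ C, ∀ X t, 0 ≤ t → t ≤ T → |G X t - dotp P X| ≤ C
  sub : ∀ φ : V3 → ℝ → ℝ, TestFun φ → ∀ X t, 0 < t →
    IsLocalMax (fun q : V3 × ℝ => G q.1 q.2 - φ q.1 q.2) (X, t) →
    ∃ e, IsNormal (fun Y => φ Y t) X e ∧
      deriv (fun s => φ X s) t + curvOp d (fun Y => φ Y t) X e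
        + A * f (X 0) (X 1) * pd (fun Y => φ Y t) X 2 ≤ 0
  super : ∀ φ : V3 → ℝ → ℝ, TestFun φ → ∀ X t, 0 < t →
    IsLocalMin (fun q : V3 × ℝ => G q.1 q.2 - φ q.1 q.2) (X, t) →
    ∃ e, IsNormal (fun Y => φ Y t) X e ∧
      0 ≤ deriv (fun s => φ X s) t + curvOp d (fun Y => φ Y t) X e
        + A * f (X 0) (X 1) * pd (fun Y => φ Y t) X 2

/-- `-(G(X,t) - P·X)/t → c` as `t → ∞` for every `X`. -/
def HasSpeed (P : V3) (G : V3 → ℝ → ℝ) (c : ℝ) : Prop :=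
  ∀ X, Tendsto (fun t => -(G X t - dotp P X) / t) atTop (𝓝 c)

end Pool.Agent.R218.GEq
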