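import Pool.Agent.R218.GEq.Flow

namespace Pool.Agent.R218.GEq

open Set Filter Topology

/-- periodic `C¹` functions on the plane are Lipschitz -/
lemma lipschitz_of_periodic {F : ℝ × ℝ → ℝ} (hF : ContDiff ℝ 1 F)
    (p1 : ∀ p : ℝ × ℝ, F (p.1 + 1, p.2) = F p) (p2 : ∀ p : ℝ × ℝ, F (p.1, p.2 + 1) = F p) :
    ∃ K, LipschitzWith K F := by
  have hc : Continuous (fun p => fderiv ℝ F p) := hF.continuous_fderiv (by norm_num)
  have hK : IsCompact ((Icc (0:ℝ) 1) ×ˢ Icc (0:ℝ) 1) := isCompact_Icc.prod isCompact_Icc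
  obtain ⟨M, hM⟩ := hK.exists_bound_of_continuousOn hc.continuousOn
  -- periodicity of the derivative
  have per : ∀ (a : ℝ × ℝ), (∀ p, F (p + a) = F p) → ∀ p, fderiv ℝ F (p + a) = fderiv ℝ F p := by
    intro a ha p
    have h1 : (fun p => F (p + a)) = F := funext ha
    have h2 := fderiv_comp_add_right (𝕜 := ℝ) (f := F) (x := p) a
    rw [h1] at h2
    exact h2.symm
  have per1 : ∀ p : ℝ × ℝ, F (p + (1, 0)) = F p := fun p => by
    have := p1 p
    convert this using 2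
    ext <;> simp
  have per2 : ∀ p : ℝ × ℝ, F (p + (0, 1)) = F p := fun p => by
    have := p2 p
    convert this using 2
    ext <;> simp
  have hb : ∀ p, ‖fderiv ℝ F p‖ ≤ M := by
    intro p
    have q1 : Function.Periodic (fun s : ℝ => fderiv ℝ F (s, p.2)) 1 := fun s => by
      have := per (1, 0) per1 (s, p.2)
      simpa using this
    have q2 : Function.Periodic (fun s : ℝ => fderiv ℝ F (Int.fract p.1, s)) 1 := fun s => by
      have := per (0, 1) per2 (Int.fract p.1, s)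
      simpa using this
    have e1 : fderiv ℝ F p = fderiv ℝ F (Int.fract p.1, p.2) := by
      have := q1.sub_int_mul_eq ⌊p.1⌋ (x := p.1)
      simp only [mul_one] at this
      exact this.symm
    have e2 : fderiv ℝ F (Int.fract p.1, p.2) = fderiv ℝ F (Int.fract p.1, Int.fract p.2) := by
      have := q2.sub_int_mul_eq ⌊p.2⌋ (x := p.2)
      simp only [mul_one] at this
      exact this.symm
    rw [e1, e2]
    exact hM _ ⟨⟨Int.fract_nonneg _, (Int.fract_lt_one _).le⟩,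
      ⟨Int.fract_nonneg _, (Int.fract_lt_one _).le⟩⟩
  have hM0 : 0 ≤ M := (norm_nonneg _).trans (hb 0)
  refine ⟨⟨M, hM0⟩, ?_⟩
  have := convex_univ.lipschitzOnWith_of_nnnorm_fderiv_le (𝕜 := ℝ) (f := F) (s := univ)
    (C := ⟨M, hM0⟩) (fun x _ => hF.differentiable (by norm_num) x) (fun x _ => hb x)
  exact lipschitzOnWith_univ.mp this

section construction

variable (ε : ℝ)

/-- the profile `v(x,y) = ε φ(2πx,2πy)/(2π)` as a list -/
noncomputable def lv : List (ℝ × ℝ × ℝ) := scl (ε / (2 * Real.pi)) (2 * Real.pi) L0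

noncomputable def vX (x y : ℝ) : ℝ := -SN (dX (lv ε)) x y
noncomputable def vY (x y : ℝ) : ℝ := -SN (dY (lv ε)) x y
noncomputable def vXX (x y : ℝ) : ℝ := -CS (dX (dX (lv ε))) x y
noncomputable def vXY (x y : ℝ) : ℝ := -CS (dX (dY (lv ε))) x y
noncomputable def vYY (x y : ℝ) : ℝ := -CS (dY (dY (lv ε))) x y

noncomputable def KK : ℝ :=
  nm (lv ε) + nm (dX (dX (lv ε))) + nm (dX (dY (lv ε))) + nm (dY (dY (lv ε)))

lemma prof_lv : Prof (CS (lv ε)) (vX ε) (vY ε) (vXX ε) (vXY ε) (vYY ε) (KK ε) := prof_CS (lv ε)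

lemma vX_eq (x y : ℝ) : vX ε x y = ε * fx (2 * Real.pi * x) (2 * Real.pi * y) := by
  unfold vX lv fx
  rw [dX_scl, SN_scl]
  have := Real.pi_pos.ne'
  field_simp

lemma vY_eq (x y : ℝ) : vY ε x y = ε * fy (2 * Real.pi * x) (2 * Real.pi * y) := by
  unfold vY lv fy
  rw [dY_scl, SN_scl]
  have := Real.pi_pos.ne'
  field_simp

lemma vLap_eq (x y : ℝ) : vXX ε x y + vYY ε x y =
    2 * Real.pi * (ε * lp (2 * Real.pi * x) (2 * Real.pi * y)) := by
  unfold vXX vYY lv lp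
  rw [dX_scl, dX_scl, dY_scl, dY_scl, CS_scl, CS_scl]
  have := Real.pi_pos.ne'
  field_simp
  ring

/-- `w` in the original variables -/
noncomputable def wv (x y : ℝ) : ℝ := nrm (qv PP (vX ε) (vY ε) x y)

lemma wv_eq (x y : ℝ) : wv ε x y = ww ε (2 * Real.pi * x) (2 * Real.pi * y) := by
  unfold wv nrm ww
  have e0 : qv PP (vX ε) (vY ε) x y 0 = 6 / 7 + vX ε x y := by simp [qv, PP]
  have e1 : qv PP (vX ε) (vY ε) x y 1 = 2 / 7 + vY ε x y := by simp [qv, PP]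
  have e2 : qv PP (vX ε) (vY ε) x y 2 = 3 / 7 := by simp [qv, PP]
  rw [e0, e1, e2, vX_eq, vY_eq]

lemma wv_ge (x y : ℝ) : 3 / 7 ≤ wv ε x y := by rw [wv_eq]; exact ww_ge _ _ _

lemma wv_sq (x y : ℝ) :
    wv ε x y ^ 2 = (6 / 7 + vX ε x y) ^ 2 + (2 / 7 + vY ε x y) ^ 2 + (3 / 7) ^ 2 := by
  unfold wv
  rw [nrm_sq]
  simp [qv, PP]

/-- the curvature part `Δv - ⟨D²v q, q⟩/w²` -/
noncomputable def cv (x y : ℝ) : ℝ := (vXX ε x y + vYY ε x y) -
  (vXX ε x y * (6 / 7 + vX ε x y) ^ 2 + 2 * vXY ε x y * ((6 / 7 + vX ε x y) * (2 / 7 + vY ε x y))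
    + vYY ε x y * (2 / 7 + vY ε x y) ^ 2) / wv ε x y ^ 2

lemma zz_eq (d : ℝ) (x y : ℝ) : zz (prof_lv ε) d PP x y = wv ε x y - d * cv ε x y := by
  unfold zz cv wv
  simp [PP]

lemma contDiff_vX : ContDiff ℝ 2 (fun p : ℝ × ℝ => vX ε p.1 p.2) := (contDiff_SN _).neg
lemma contDiff_vY : ContDiff ℝ 2 (fun p : ℝ × ℝ => vY ε p.1 p.2) := (contDiff_SN _).neg
lemma contDiff_vXX : ContDiff ℝ 2 (fun p : ℝ × ℝ => vXX ε p.1 p.2) := (contDiff_CS _).neg
lemma contDiff_vXY : ContDiff ℝ 2 (fun p : ℝ × ℝ => vXY ε p.1 p.2) := (contDiff_CS _).neg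
lemma contDiff_vYY : ContDiff ℝ 2 (fun p : ℝ × ℝ => vYY ε p.1 p.2) := (contDiff_CS _).neg

lemma contDiff_wv : ContDiff ℝ 2 (fun p : ℝ × ℝ => wv ε p.1 p.2) := by
  have e : (fun p : ℝ × ℝ => wv ε p.1 p.2) = fun p : ℝ × ℝ =>
      Real.sqrt ((6 / 7 + vX ε p.1 p.2) ^ 2 + (2 / 7 + vY ε p.1 p.2) ^ 2 + (3 / 7) ^ 2) := by
    funext p
    rw [← wv_sq, Real.sqrt_sq (by linarith [wv_ge ε p.1 p.2])]
  rw [e]
  have h1 := contDiff_vX ε
  have h2 := contDiff_vY ε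
  apply ContDiff.sqrt
  · fun_prop
  · intro p
    positivity

lemma contDiff_cv : ContDiff ℝ 2 (fun p : ℝ × ℝ => cv ε p.1 p.2) := by
  unfold cv
  have h1 := contDiff_vX ε
  have h2 := contDiff_vY ε
  have h3 := contDiff_vXX ε
  have h4 := contDiff_vXY ε
  have h5 := contDiff_vYY ε
  have h6 := contDiff_wv ε
  apply ContDiff.sub (by fun_prop)
  apply ContDiff.div (by fun_prop) (by fun_prop)
  intro p
  have := wv_ge ε p.1 p.2
  positivity

end construction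

/-- integer frequencies -/
def IntFreq (l : List (ℝ × ℝ × ℝ)) : Prop :=
  ∀ t ∈ l, ∃ m n : ℤ, t.2.1 = 2 * Real.pi * m ∧ t.2.2 = 2 * Real.pi * n

lemma intFreq_dX {l : List (ℝ × ℝ × ℝ)} (h : IntFreq l) : IntFreq (dX l) := by
  intro t ht
  unfold dX at ht
  rw [List.mem_map] at ht
  obtain ⟨s, hs, rfl⟩ := ht
  exact h s hs

lemma intFreq_dY {l : List (ℝ × ℝ × ℝ)} (h : IntFreq l) : IntFreq (dY l) := by
  intro t ht
  unfold dY at ht
  rw [List.mem_map] at ht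
  obtain ⟨s, hs, rfl⟩ := ht
  exact h s hs

lemma intFreq_lv (ε : ℝ) : IntFreq (lv ε) := by
  intro t ht
  unfold lv scl L0 at ht
  simp only [List.map_cons, List.map_nil, List.mem_cons, List.not_mem_nil, or_false] at ht
  rcases ht with rfl | rfl | rfl
  · exact ⟨1, 0, by simp, by simp⟩
  · exact ⟨0, 1, by simp, by simp⟩
  · exact ⟨1, 1, by simp, by simp⟩

lemma CS_per {l : List (ℝ × ℝ × ℝ)} (h : IntFreq l) (x y : ℝ) :
    CS l (x + 1) y = CS l x y ∧ CS l x (y + 1) = CS l x y := by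
  unfold CS
  constructor
  · congr 1
    apply List.map_congr_left
    intro t ht
    obtain ⟨m, n, h1, h2⟩ := h t ht
    have e : t.2.1 * (x + 1) + t.2.2 * y = (t.2.1 * x + t.2.2 * y) + m * (2 * Real.pi) := by
      rw [h1]; ring
    rw [e, Real.cos_add_int_mul_two_pi]
  · congr 1
    apply List.map_congr_left
    intro t ht
    obtain ⟨m, n, h1, h2⟩ := h t ht
    have e : t.2.1 * x + t.2.2 * (y + 1) = (t.2.1 * x + t.2.2 * y) + n * (2 * Real.pi) := by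
      rw [h2]; ring
    rw [e, Real.cos_add_int_mul_two_pi]

lemma SN_per {l : List (ℝ × ℝ × ℝ)} (h : IntFreq l) (x y : ℝ) :
    SN l (x + 1) y = SN l x y ∧ SN l x (y + 1) = SN l x y := by
  unfold SN
  constructor
  · congr 1
    apply List.map_congr_left
    intro t ht
    obtain ⟨m, n, h1, h2⟩ := h t ht
    have e : t.2.1 * (x + 1) + t.2.2 * y = (t.2.1 * x + t.2.2 * y) + m * (2 * Real.pi) := by
      rw [h1]; ring
    rw [e, Real.sin_add_int_mul_two_pi]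
  · congr 1
    apply List.map_congr_left
    intro t ht
    obtain ⟨m, n, h1, h2⟩ := h t ht
    have e : t.2.1 * x + t.2.2 * (y + 1) = (t.2.1 * x + t.2.2 * y) + n * (2 * Real.pi) := by
      rw [h2]; ring
    rw [e, Real.sin_add_int_mul_two_pi]

lemma wcv_per (ε : ℝ) (x y : ℝ) : (wv ε (x + 1) y = wv ε x y ∧ cv ε (x + 1) y = cv ε x y) ∧
    (wv ε x (y + 1) = wv ε x y ∧ cv ε x (y + 1) = cv ε x y) := by
  have i0 := intFreq_lv ε
  have a1 := SN_per (intFreq_dX i0) x y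
  have a2 := SN_per (intFreq_dY i0) x y
  have a3 := CS_per (intFreq_dX (intFreq_dX i0)) x y
  have a4 := CS_per (intFreq_dX (intFreq_dY i0)) x y
  have a5 := CS_per (intFreq_dY (intFreq_dY i0)) x y
  unfold cv wv qv vX vY vXX vXY vYY
  rw [a1.1, a1.2, a2.1, a2.2, a3.1, a3.2, a4.1, a4.2, a5.1, a5.2]
  exact ⟨⟨rfl, rfl⟩, ⟨rfl, rfl⟩⟩

lemma bdd2 {F : ℝ → ℝ → ℝ} (hc : Continuous (fun p : ℝ × ℝ => F p.1 p.2))
    (p1 : ∀ x y, F (x + 1) y = F x y) (p2 : ∀ x y, F x (y + 1) = F x y) :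
    ∃ M, 0 ≤ M ∧ ∀ x y, |F x y| ≤ M := by
  have hK : IsCompact ((Icc (0:ℝ) 1) ×ˢ Icc (0:ℝ) 1) := isCompact_Icc.prod isCompact_Icc
  obtain ⟨M, hM⟩ := hK.exists_bound_of_continuousOn hc.continuousOn
  refine ⟨max M 0, le_max_right _ _, fun x y => ?_⟩
  have q1 : Function.Periodic (fun s : ℝ => F s y) 1 := fun s => p1 s y
  have q2 : Function.Periodic (fun s : ℝ => F (Int.fract x) s) 1 := fun s => p2 _ s
  have e1 : F x y = F (Int.fract x) y := by
    have := q1.sub_int_mul_eq ⌊x⌋ (x := x)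
    simp only [mul_one] at this
    exact this.symm
  have e2 : F (Int.fract x) y = F (Int.fract x) (Int.fract y) := by
    have := q2.sub_int_mul_eq ⌊y⌋ (x := y)
    simp only [mul_one] at this
    exact this.symm
  rw [e1, e2]
  exact (hM (Int.fract x, Int.fract y) ⟨⟨Int.fract_nonneg _, (Int.fract_lt_one _).le⟩,
      ⟨Int.fract_nonneg _, (Int.fract_lt_one _).le⟩⟩).trans (le_max_left _ _)

/-! ### the corrector -/

section corrector

variable (ε : ℝ)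

/-- `Z(2πx,2πy)` -/
noncomputable def Zt (x y : ℝ) : ℝ := SN (scl ε (2 * Real.pi) L1) x y
  + CS (scl (ε ^ 2) (2 * Real.pi) L2) x y + SN (scl (ε ^ 3) (2 * Real.pi) L3) x y

lemma Zt_line (x y a b : ℝ) : HasDerivAt (fun s => Zt ε (x + s * a) (y + s * b))
    (2 * Real.pi * (Zx ε (2 * Real.pi * x) (2 * Real.pi * y) * a
      + Zy ε (2 * Real.pi * x) (2 * Real.pi * y) * b)) 0 := by
  have h1 := ((SN_line (scl ε (2 * Real.pi) L1) x y a b 0).add
    (CS_line (scl (ε ^ 2) (2 * Real.pi) L2) x y a b 0)).add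
    (SN_line (scl (ε ^ 3) (2 * Real.pi) L3) x y a b 0)
  refine h1.congr_deriv ?_
  simp only [zero_mul, add_zero, dX_scl, dY_scl, CS_scl, SN_scl]
  unfold Zx Zy z1x z1y z2x z2y z3x z3y
  ring

lemma wv_line (x y a b : ℝ) : HasDerivAt (fun s => wv ε (x + s * a) (y + s * b))
    ((((6 / 7 + vX ε x y) * vXX ε x y + (2 / 7 + vY ε x y) * vXY ε x y) / wv ε x y) * a
      + (((6 / 7 + vX ε x y) * vXY ε x y + (2 / 7 + vY ε x y) * vYY ε x y) / wv ε x y) * b) 0 := by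
  have e : (fun s => wv ε (x + s * a) (y + s * b)) = fun s =>
      Real.sqrt ((6 / 7 + vX ε (x + s * a) (y + s * b)) ^ 2
        + (2 / 7 + vY ε (x + s * a) (y + s * b)) ^ 2 + (3 / 7) ^ 2) := by
    funext s
    rw [← wv_sq, Real.sqrt_sq (by linarith [wv_ge ε (x + s * a) (y + s * b)])]
  rw [e]
  have h1 : HasDerivAt (fun s => vX ε (x + s * a) (y + s * b)) (vXX ε x y * a + vXY ε x y * b) 0 := by
    have := (SN_line (dX (lv ε)) x y a b 0).neg
    refine this.congr_deriv ?_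
    unfold vXX vXY
    rw [← dX_dY]
    simp only [zero_mul, add_zero]
    ring
  have h2 : HasDerivAt (fun s => vY ε (x + s * a) (y + s * b)) (vXY ε x y * a + vYY ε x y * b) 0 := by
    have := (SN_line (dY (lv ε)) x y a b 0).neg
    refine this.congr_deriv ?_
    unfold vXY vYY
    simp only [zero_mul, add_zero]
    ring
  have h3 := ((((h1.const_add (6 / 7)).pow 2).add ((h2.const_add (2 / 7)).pow 2)).add_const
    ((3 / 7 : ℝ) ^ 2)).sqrt (by
      simp only [Pi.add_apply, Pi.pow_apply]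
      positivity)
  refine h3.congr_deriv ?_
  have hw : Real.sqrt ((6 / 7 + vX ε x y) ^ 2 + (2 / 7 + vY ε x y) ^ 2 + (3 / 7) ^ 2) = wv ε x y := by
    rw [← wv_sq, Real.sqrt_sq (by linarith [wv_ge ε x y])]
  simp only [Pi.add_apply, Pi.pow_apply, zero_mul, add_zero]
  rw [hw]
  have := (lt_of_lt_of_le (by norm_num : (0:ℝ) < 3 / 7) (wv_ge ε x y)).ne'
  field_simp
  push_cast
  ring

/-- the profile for `d = 0` -/
noncomputable def V0 (d x y : ℝ) : ℝ := CS (lv ε) x y + d * (Zt ε x y + wv ε x y)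

noncomputable def DD0 (x y : ℝ) : ℝ := 2 * Real.pi * Zx ε (2 * Real.pi * x) (2 * Real.pi * y)
  + ((6 / 7 + vX ε x y) * vXX ε x y + (2 / 7 + vY ε x y) * vXY ε x y) / wv ε x y

noncomputable def DD1 (x y : ℝ) : ℝ := 2 * Real.pi * Zy ε (2 * Real.pi * x) (2 * Real.pi * y)
  + ((6 / 7 + vX ε x y) * vXY ε x y + (2 / 7 + vY ε x y) * vYY ε x y) / wv ε x y

lemma V0_line (d x y a b : ℝ) : HasDerivAt (fun s => V0 ε d (x + s * a) (y + s * b))
    ((vX ε x y + d * DD0 ε x y) * a + (vY ε x y + d * DD1 ε x y) * b) 0 := by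
  have h1 := (CS_line (lv ε) x y a b 0).add (((Zt_line ε x y a b).add (wv_line ε x y a b)).const_mul d)
  refine h1.congr_deriv ?_
  unfold DD0 DD1 vX vY
  simp only [zero_mul, add_zero]
  ring

lemma V0_x (d x y : ℝ) : HasDerivAt (fun s => V0 ε d (x + s) y) (vX ε x y + d * DD0 ε x y) 0 := by
  have := V0_line ε d x y 1 0
  simpa using this

lemma V0_y (d x y : ℝ) : HasDerivAt (fun s => V0 ε d x (y + s)) (vY ε x y + d * DD1 ε x y) 0 := by
  have := V0_line ε d x y 0 1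
  simpa using this

lemma contDiff_V0 (d : ℝ) : ContDiff ℝ 2 (fun p : ℝ × ℝ => V0 ε d p.1 p.2) := by
  unfold V0 Zt
  have h1 := contDiff_wv ε
  have h2 : ContDiff ℝ 2 (fun p : ℝ × ℝ => CS (lv ε) p.1 p.2) := contDiff_CS _
  have h3 : ContDiff ℝ 2 (fun p : ℝ × ℝ => SN (scl ε (2 * Real.pi) L1) p.1 p.2) := contDiff_SN _
  have h4 : ContDiff ℝ 2 (fun p : ℝ × ℝ => CS (scl (ε ^ 2) (2 * Real.pi) L2) p.1 p.2) :=
    contDiff_CS _
  have h5 : ContDiff ℝ 2 (fun p : ℝ × ℝ => SN (scl (ε ^ 3) (2 * Real.pi) L3) p.1 p.2) :=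
    contDiff_SN _
  fun_prop

/-- the algebraic heart of the comparison of speeds -/
lemma core3 {q0 q1 w D0 D1 zx zy m00 m01 m11 lap κ η d W Dm δ c : ℝ} (hd : 0 < d) (hκ : 0 < κ)
    (hη : 0 < η) (hw : w ^ 2 = q0 ^ 2 + q1 ^ 2 + (3 / 7) ^ 2) (hw1 : 3 / 7 ≤ w) (hwW : w ≤ W)
    (hD0 : D0 = κ * zx + (q0 * m00 + q1 * m01) / w) (hD1 : D1 = κ * zy + (q0 * m01 + q1 * m11) / w)
    (hc : c = (m00 + m11) - (m00 * q0 ^ 2 + 2 * m01 * (q0 * q1) + m11 * q1 ^ 2) / w ^ 2)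
    (hlap : m00 + m11 = κ * lap) (hR : q0 * zx + q1 * zy + w * lap ≤ -η)
    (hDm : D0 ^ 2 + D1 ^ 2 ≤ Dm) (hd1 : d * Dm ≤ κ * η) (hδ : δ = d * κ * η / (2 * W))
    (hT : 0 ≤ w - d * c - δ) :
    Real.sqrt ((q0 + d * D0) ^ 2 + (q1 + d * D1) ^ 2 + (3 / 7) ^ 2) ≤ w - d * c - δ := by
  apply Real.sqrt_le_iff.mpr
  refine ⟨hT, ?_⟩
  have hw0 : 0 < w := by linarith
  have hW0 : 0 < W := by linarith
  have hS : (q0 * D0 + q1 * D1) + w * c = κ * (q0 * zx + q1 * zy + w * lap) := by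
    rw [hD0, hD1, hc, hlap]
    field_simp
    ring
  have h1 : (q0 * D0 + q1 * D1) + w * c ≤ -(κ * η) := by
    rw [hS]
    nlinarith
  have h2 : 2 * w * δ ≤ d * κ * η := by
    rw [hδ]
    have e : 2 * w * (d * κ * η / (2 * W)) = (w / W) * (d * κ * η) := by field_simp
    rw [e]
    have : w / W ≤ 1 := by rw [div_le_one hW0]; exact hwW
    have h3 : 0 ≤ d * κ * η := by positivity
    nlinarith
  have h3 : d ^ 2 * (D0 ^ 2 + D1 ^ 2) ≤ d * (κ * η) := by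
    have : d * (d * (D0 ^ 2 + D1 ^ 2)) ≤ d * (d * Dm) := by gcongr
    calc d ^ 2 * (D0 ^ 2 + D1 ^ 2) = d * (d * (D0 ^ 2 + D1 ^ 2)) := by ring
      _ ≤ d * (d * Dm) := this
      _ ≤ d * (κ * η) := by gcongr
  have h4 : (q0 + d * D0) ^ 2 + (q1 + d * D1) ^ 2 + (3 / 7) ^ 2 =
      w ^ 2 + 2 * d * (q0 * D0 + q1 * D1) + d ^ 2 * (D0 ^ 2 + D1 ^ 2) := by
    rw [hw]
    ring
  rw [h4]
  have h5 : 2 * d * ((q0 * D0 + q1 * D1) + w * c) ≤ 2 * d * (-(κ * η)) :=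
    mul_le_mul_of_nonneg_left h1 (by positivity)
  have h6 : (w - d * c - δ) ^ 2 = w ^ 2 - 2 * w * (d * c) - 2 * w * δ + (d * c + δ) ^ 2 := by ring
  rw [h6]
  nlinarith [sq_nonneg (d * c + δ)]

end corrector

end Pool.Agent.R218.GEq
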