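import Mathlib

/-!
# Trigonometric polynomials given by lists, and the third order expansion
-/

namespace Pool.Agent.R218.GEq

open Set Filter Topology

/-- `∑ c cos(m x + n y)` over the entries `(c,m,n)` -/
noncomputable def CS (l : List (ℝ × ℝ × ℝ)) (x y : ℝ) : ℝ :=
  (l.map fun t => t.1 * Real.cos (t.2.1 * x + t.2.2 * y)).sum

/-- `∑ c sin(m x + n y)` over the entries `(c,m,n)` -/
noncomputable def SN (l : List (ℝ × ℝ × ℝ)) (x y : ℝ) : ℝ :=
  (l.map fun t => t.1 * Real.sin (t.2.1 * x + t.2.2 * y)).sum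

/-- multiply coefficients by the first frequency -/
noncomputable def dX (l : List (ℝ × ℝ × ℝ)) : List (ℝ × ℝ × ℝ) :=
  l.map fun t => (t.1 * t.2.1, t.2)

/-- multiply coefficients by the second frequency -/
noncomputable def dY (l : List (ℝ × ℝ × ℝ)) : List (ℝ × ℝ × ℝ) :=
  l.map fun t => (t.1 * t.2.2, t.2)

/-- sum of the absolute values of the coefficients -/
noncomputable def nm (l : List (ℝ × ℝ × ℝ)) : ℝ := (l.map fun t => |t.1|).sum

lemma nm_nonneg (l : List (ℝ × ℝ × ℝ)) : 0 ≤ nm l := by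
  unfold nm
  apply List.sum_nonneg
  intro a ha
  simp only [List.mem_map] at ha
  obtain ⟨t, -, rfl⟩ := ha
  exact abs_nonneg _

lemma CS_cons (t : ℝ × ℝ × ℝ) (l : List (ℝ × ℝ × ℝ)) (x y : ℝ) :
    CS (t :: l) x y = t.1 * Real.cos (t.2.1 * x + t.2.2 * y) + CS l x y := by simp [CS]

lemma SN_cons (t : ℝ × ℝ × ℝ) (l : List (ℝ × ℝ × ℝ)) (x y : ℝ) :
    SN (t :: l) x y = t.1 * Real.sin (t.2.1 * x + t.2.2 * y) + SN l x y := by simp [SN]

lemma nm_cons (t : ℝ × ℝ × ℝ) (l : List (ℝ × ℝ × ℝ)) : nm (t :: l) = |t.1| + nm l := by simp [nm]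

lemma dX_cons (t : ℝ × ℝ × ℝ) (l : List (ℝ × ℝ × ℝ)) :
    dX (t :: l) = (t.1 * t.2.1, t.2) :: dX l := by simp [dX]

lemma dY_cons (t : ℝ × ℝ × ℝ) (l : List (ℝ × ℝ × ℝ)) :
    dY (t :: l) = (t.1 * t.2.2, t.2) :: dY l := by simp [dY]

lemma CS_nil (x y : ℝ) : CS [] x y = 0 := by simp [CS]
lemma SN_nil (x y : ℝ) : SN [] x y = 0 := by simp [SN]

lemma abs_CS_le (l : List (ℝ × ℝ × ℝ)) (x y : ℝ) : |CS l x y| ≤ nm l := by
  induction l with
  | nil => simp [CS, nm]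
  | cons t l ih =>
    rw [CS_cons, nm_cons]
    refine (abs_add_le _ _).trans (add_le_add ?_ ih)
    rw [abs_mul]
    exact mul_le_of_le_one_right (abs_nonneg _) (Real.abs_cos_le_one _)

lemma abs_SN_le (l : List (ℝ × ℝ × ℝ)) (x y : ℝ) : |SN l x y| ≤ nm l := by
  induction l with
  | nil => simp [SN, nm]
  | cons t l ih =>
    rw [SN_cons, nm_cons]
    refine (abs_add_le _ _).trans (add_le_add ?_ ih)
    rw [abs_mul]
    exact mul_le_of_le_one_right (abs_nonneg _) (Real.abs_sin_le_one _)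

lemma contDiff_CS (l : List (ℝ × ℝ × ℝ)) {n : WithTop ℕ∞} :
    ContDiff ℝ n (fun p : ℝ × ℝ => CS l p.1 p.2) := by
  induction l with
  | nil => simp only [CS_nil]; exact contDiff_const
  | cons t l ih =>
    simp only [CS_cons]
    exact (contDiff_const.mul (Real.contDiff_cos.comp (by fun_prop))).add ih

lemma contDiff_SN (l : List (ℝ × ℝ × ℝ)) {n : WithTop ℕ∞} :
    ContDiff ℝ n (fun p : ℝ × ℝ => SN l p.1 p.2) := by
  induction l with
  | nil => simp only [SN_nil]; exact contDiff_const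
  | cons t l ih =>
    simp only [SN_cons]
    exact (contDiff_const.mul (Real.contDiff_sin.comp (by fun_prop))).add ih

lemma line_aux (m n x y a b s : ℝ) :
    HasDerivAt (fun s => m * (x + s * a) + n * (y + s * b)) (m * a + n * b) s := by
  have h1 := ((hasDerivAt_id s).mul_const a).const_add x
  have h2 := ((hasDerivAt_id s).mul_const b).const_add y
  have h3 := (h1.const_mul m).add (h2.const_mul n)
  exact h3.congr_deriv (by ring)

lemma CS_line (l : List (ℝ × ℝ × ℝ)) (x y a b s : ℝ) :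
    HasDerivAt (fun s => CS l (x + s * a) (y + s * b))
      (-(SN (dX l) (x + s * a) (y + s * b) * a + SN (dY l) (x + s * a) (y + s * b) * b)) s := by
  induction l with
  | nil =>
    simp only [CS_nil, dX, dY, List.map_nil, SN_nil]
    simpa using hasDerivAt_const s (0:ℝ)
  | cons t l ih =>
    simp only [CS_cons, dX_cons, dY_cons, SN_cons]
    have h1 := ((line_aux t.2.1 t.2.2 x y a b s).cos.const_mul t.1).add ih
    refine h1.congr_deriv ?_
    ring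

lemma SN_line (l : List (ℝ × ℝ × ℝ)) (x y a b s : ℝ) :
    HasDerivAt (fun s => SN l (x + s * a) (y + s * b))
      (CS (dX l) (x + s * a) (y + s * b) * a + CS (dY l) (x + s * a) (y + s * b) * b) s := by
  induction l with
  | nil =>
    simp only [SN_nil, dX, dY, List.map_nil, CS_nil]
    simpa using hasDerivAt_const s (0:ℝ)
  | cons t l ih =>
    simp only [SN_cons, dX_cons, dY_cons, CS_cons]
    have h1 := ((line_aux t.2.1 t.2.2 x y a b s).sin.const_mul t.1).add ih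
    refine h1.congr_deriv ?_
    ring

lemma dX_dY (l : List (ℝ × ℝ × ℝ)) : dX (dY l) = dY (dX l) := by
  unfold dX dY
  rw [List.map_map, List.map_map]
  congr 1
  funext t
  simp only [Function.comp_apply]
  rw [mul_right_comm]

noncomputable def L0 : List (ℝ × ℝ × ℝ) := [(1, 1, 0), (1, 0, 1), (1, 1, 1)]

noncomputable def L1 : List (ℝ × ℝ × ℝ) := [(7/2, 0, 1), (7/6, 1, 0), (7/4, 1, 1)]

noncomputable def L2 : List (ℝ × ℝ × ℝ) := [(1/48, 0, 1), (-45/16, 0, 2), (1/2, 1, -1), (-11/16, 1, 0), (1/2, 1, 1), (-99/80, 1, 2), (-13/144, 2, 0), (-5/336, 2, 1), (-17/64, 2, 2)]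

noncomputable def L3 : List (ℝ × ℝ × ℝ) := [(19079/1120, 0, 1), (577/960, 0, 2), (-765/224, 0, 3), (29/112, 1, -2), (9809/2016, 1, -1), (271/6048, 1, 0), (59951/26880, 1, 1), (745/2688, 1, 2), (-1453/560, 1, 3), (61/560, 2, -1), (-695/4032, 2, 0), (1411/6272, 2, 1), (-521/6720, 2, 2), (-39911/40320, 2, 3), (-871/18144, 3, 0), (-89/1440, 3, 1), (-1207/9856, 3, 2), (-1105/5376, 3, 3)]

/-! the functions of the expansion -/

noncomputable def fx (x y : ℝ) : ℝ := -SN (dX L0) x y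
noncomputable def fy (x y : ℝ) : ℝ := -SN (dY L0) x y
noncomputable def lp (x y : ℝ) : ℝ := -(CS (dX (dX L0)) x y + CS (dY (dY L0)) x y)
noncomputable def z1x (x y : ℝ) : ℝ := CS (dX L1) x y
noncomputable def z1y (x y : ℝ) : ℝ := CS (dY L1) x y
noncomputable def z2x (x y : ℝ) : ℝ := -SN (dX L2) x y
noncomputable def z2y (x y : ℝ) : ℝ := -SN (dY L2) x y
noncomputable def z3x (x y : ℝ) : ℝ := CS (dX L3) x y
noncomputable def z3y (x y : ℝ) : ℝ := CS (dY L3) x y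
noncomputable def uu (x y : ℝ) : ℝ := 6 / 7 * fx x y + 2 / 7 * fy x y
noncomputable def gg (x y : ℝ) : ℝ := fx x y ^ 2 + fy x y ^ 2

lemma I1 (x y : ℝ) : 6 / 7 * z1x x y + 2 / 7 * z1y x y + lp x y = 0 := by
  simp only [z1x, z1y, lp, CS, dX, dY, L0, L1, List.map_cons, List.map_nil, List.sum_cons,
    List.sum_nil, one_mul, zero_mul, add_zero, zero_add, mul_zero, mul_one]
  simp only [Real.cos_add]
  generalize Real.cos x = c1
  generalize Real.sin x = s1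
  generalize Real.cos y = c2
  generalize Real.sin y = s2
  ring

lemma I2 (x y : ℝ) : 6 / 7 * z2x x y + 2 / 7 * z2y x y +
    (fx x y * z1x x y + fy x y * z1y x y) + uu x y * lp x y = 0 := by
  have h1 : Real.sin x ^ 2 + Real.cos x ^ 2 = 1 := Real.sin_sq_add_cos_sq x
  have h2 : Real.sin y ^ 2 + Real.cos y ^ 2 = 1 := Real.sin_sq_add_cos_sq y
  simp only [uu, fx, fy, z1x, z1y, z2x, z2y, lp, CS, SN, dX, dY, L0, L1, L2, List.map_cons,
    List.map_nil, List.sum_cons, List.sum_nil, one_mul, zero_mul, add_zero, zero_add, mul_zero,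
    mul_one]
  simp only [Real.cos_add, Real.sin_add, Real.cos_neg, Real.sin_neg, neg_mul, one_mul,
    Real.cos_two_mul, Real.sin_two_mul]
  generalize Real.cos x = c1 at h1 ⊢
  generalize Real.sin x = s1 at h1 ⊢
  generalize Real.cos y = c2 at h2 ⊢
  generalize Real.sin y = s2 at h2 ⊢
  linear_combination ((1/28)*s2 + (17/14)*c2*s2) * h1 + ((33/28)*s1 + (17/14)*c1*s1) * h2

lemma I3 (x y : ℝ) : 6 / 7 * z3x x y + 2 / 7 * z3y x y +
    (fx x y * z2x x y + fy x y * z2y x y) + (gg x y - uu x y ^ 2) / 2 * lp x y = - (19 / 147) := by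
  have h1 : Real.sin x ^ 2 + Real.cos x ^ 2 = 1 := Real.sin_sq_add_cos_sq x
  have h2 : Real.sin y ^ 2 + Real.cos y ^ 2 = 1 := Real.sin_sq_add_cos_sq y
  simp only [uu, gg, fx, fy, z2x, z2y, z3x, z3y, lp, CS, SN, dX, dY, L0, L2, L3, List.map_cons,
    List.map_nil, List.sum_cons, List.sum_nil, one_mul, zero_mul, add_zero, zero_add, mul_zero,
    mul_one]
  simp only [Real.cos_add, Real.sin_add, Real.cos_neg, Real.sin_neg, neg_mul, one_mul,
    Real.cos_two_mul, Real.sin_two_mul, Real.cos_three_mul, Real.sin_three_mul]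
  generalize Real.cos x = c1 at h1 ⊢
  generalize Real.sin x = s1 at h1 ⊢
  generalize Real.cos y = c2 at h2 ⊢
  generalize Real.sin y = s2 at h2 ⊢
  linear_combination ((11/20) + (-24/49)*s2^2 + (7629/1960)*c2 + (66/49)*c2*s2^2 + (-2931/1960)*c2^2 + (-15233/1960)*c2^3 + (-31391/3528)*s1*s2 + (1105/98)*s1*s2^3 + (-1191/392)*s1*c2*s2 + (34/49)*s1*c2^2*s2 + (4013/7056)*c1 + (2/49)*c1*s2^2 + (715/504)*c1*c2 + (68/49)*c1*c2*s2^2 + (-255/98)*c1*c2^2 + (-969/196)*c1*c2^3) * h1 + ((-89/196) + (-7291/784)*c2 + (-27547/1960)*s1*s2 + (761/1176)*c1 + (-27987/1960)*c1*c2 + (-37271/1960)*c1*s1*s2 + (925/1176)*c1^2 + (-12339/980)*c1^2*c2 + (-1037/98)*c1^2*s1*s2 + (-187/392)*c1^3 + (-1241/196)*c1^3*c2) * h2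

/-- derivatives of the corrector `Z = ε ζ₁ + ε² ζ₂ + ε³ ζ₃` -/
noncomputable def Zx (ε x y : ℝ) : ℝ := ε * z1x x y + ε ^ 2 * z2x x y + ε ^ 3 * z3x x y
noncomputable def Zy (ε x y : ℝ) : ℝ := ε * z1y x y + ε ^ 2 * z2y x y + ε ^ 3 * z3y x y

/-- `w = sqrt ((3/7)² + |a + ε Dφ|²)` -/
noncomputable def ww (ε x y : ℝ) : ℝ :=
  Real.sqrt ((6 / 7 + ε * fx x y) ^ 2 + (2 / 7 + ε * fy x y) ^ 2 + (3 / 7) ^ 2)

lemma ww_ge (ε x y : ℝ) : 3 / 7 ≤ ww ε x y := by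
  apply Real.le_sqrt_of_sq_le
  nlinarith [sq_nonneg (6 / 7 + ε * fx x y), sq_nonneg (2 / 7 + ε * fy x y)]

lemma ww_sq (ε x y : ℝ) : ww ε x y ^ 2 = 1 + 2 * ε * uu x y + ε ^ 2 * gg x y := by
  unfold ww
  rw [Real.sq_sqrt (by positivity)]
  unfold uu gg
  ring

/-- algebraic core of the key inequality, part 1: the square root expansion -/
lemma core1 {K ε u g w : ℝ} (hK1 : 1 ≤ K) (hε0 : 0 < ε) (hεK : ε * K ^ 5 = 1 / 1000)
    (hub : |u| ≤ 2 * K) (hgb : |g| ≤ 2 * K ^ 2) (hw : w ^ 2 = 1 + 2 * ε * u + ε ^ 2 * g)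
    (hw1 : 3 / 7 ≤ w) :
    |w - (1 + ε * u + ε ^ 2 * (g - u ^ 2) / 2)| ≤ 49 * K ^ 4 * ε ^ 3 := by
  have hK5 : 1 ≤ K ^ 5 := one_le_pow₀ hK1
  have hε1 : ε ≤ 1 / 1000 := by
    have : ε * 1 ≤ ε * K ^ 5 := mul_le_mul_of_nonneg_left hK5 hε0.le
    linarith
  have hKle : ∀ {a b : ℕ}, a ≤ b → K ^ a ≤ K ^ b := fun hab => pow_le_pow_right₀ hK1 hab
  have hu2 : u ^ 2 ≤ 4 * K ^ 2 := by
    have := sq_le_sq' (abs_le.mp hub).1 (abs_le.mp hub).2
    linarith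
  obtain ⟨h, hh⟩ : ∃ h, h = g - u ^ 2 := ⟨_, rfl⟩
  have hhb : |h| ≤ 6 * K ^ 2 := by
    rw [hh]
    refine (abs_sub _ _).trans ?_
    rw [abs_of_nonneg (sq_nonneg u)]
    linarith
  rw [← hh]
  obtain ⟨s, hs⟩ : ∃ s, s = 1 + ε * u + ε ^ 2 * h / 2 := ⟨_, rfl⟩
  rw [← hs]
  have hs0 : 0 ≤ s := by
    have t1 : -(2 * (ε * K ^ 5)) ≤ ε * u := by
      have t2 := (abs_le.mp hub).1
      have t3 : K ^ 1 ≤ K ^ 5 := hKle (show 1 ≤ 5 by norm_num)
      have t4 : -(2 * K ^ 5) ≤ u := by linarith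
      have t5 := mul_le_mul_of_nonneg_left t4 hε0.le
      linarith
    have t2 : -(6 * (ε * K ^ 5)) ≤ ε ^ 2 * h := by
      have t2 := (abs_le.mp hhb).1
      have t3 : K ^ 2 ≤ K ^ 5 := hKle (by norm_num)
      have t4 : ε ^ 2 ≤ ε := by
        have := mul_le_mul_of_nonneg_left (show ε ≤ 1 by linarith) hε0.le
        linarith
      have t5 : -(6 * K ^ 5) ≤ h := by linarith
      have t6 := mul_le_mul_of_nonneg_left t5 (sq_nonneg ε)
      have t7 : ε ^ 2 * K ^ 5 ≤ ε * K ^ 5 := mul_le_mul_of_nonneg_right t4 (by positivity)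
      linarith
    rw [hs]
    rw [hεK] at t1 t2
    linarith
  have e1 : (w - s) * (w + s) = -(ε ^ 3 * (u * h + ε * h ^ 2 / 4)) := by
    have : (w - s) * (w + s) = w ^ 2 - s ^ 2 := by ring
    rw [this, hw, hs, hh]
    ring
  have e2 : |w - s| * (w + s) ≤ ε ^ 3 * (21 * K ^ 4) := by
    have e3 : |w - s| * (w + s) = |(w - s) * (w + s)| := by
      rw [abs_mul, abs_of_nonneg (by linarith : 0 ≤ w + s)]
    rw [e3, e1, abs_neg, abs_mul, abs_of_pos (by positivity : 0 < ε ^ 3)]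
    apply mul_le_mul_of_nonneg_left _ (by positivity)
    refine (abs_add_le _ _).trans ?_
    have t1 : |u * h| ≤ 12 * K ^ 3 := by
      rw [abs_mul]
      calc |u| * |h| ≤ (2 * K) * (6 * K ^ 2) :=
            mul_le_mul hub hhb (abs_nonneg _) (by positivity)
        _ = 12 * K ^ 3 := by ring
    have t2 : |ε * h ^ 2 / 4| ≤ 9 * K ^ 4 := by
      rw [abs_of_nonneg (by positivity)]
      have t3 : h ^ 2 ≤ 36 * K ^ 4 := by
        have := sq_le_sq' (abs_le.mp hhb).1 (abs_le.mp hhb).2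
        calc h ^ 2 ≤ (6 * K ^ 2) ^ 2 := this
          _ = 36 * K ^ 4 := by ring
      have t4 : ε * h ^ 2 ≤ 1 * h ^ 2 := mul_le_mul_of_nonneg_right (by linarith) (sq_nonneg h)
      linarith
    have t3 : K ^ 3 ≤ K ^ 4 := hKle (by norm_num)
    linarith
  have e4 : |w - s| * (3 / 7) ≤ |w - s| * (w + s) :=
    mul_le_mul_of_nonneg_left (by linarith) (abs_nonneg _)
  linarith

/-- algebraic core of the key inequality, part 2 -/
lemma core2 {K ε a b l x1 y1 x2 y2 x3 y3 w : ℝ} (hK1 : 1 ≤ K) (hε0 : 0 < ε)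
    (hεK : ε * K ^ 5 = 1 / 1000) (c1 : |a| ≤ K) (c2 : |b| ≤ K) (c3 : |l| ≤ K) (c4 : |x3| ≤ K)
    (c5 : |y3| ≤ K)
    (hw : w ^ 2 = 1 + 2 * ε * (6 / 7 * a + 2 / 7 * b) + ε ^ 2 * (a ^ 2 + b ^ 2)) (hw1 : 3 / 7 ≤ w)
    (i1 : 6 / 7 * x1 + 2 / 7 * y1 + l = 0)
    (i2 : 6 / 7 * x2 + 2 / 7 * y2 + (a * x1 + b * y1) + (6 / 7 * a + 2 / 7 * b) * l = 0)
    (i3 : 6 / 7 * x3 + 2 / 7 * y3 + (a * x2 + b * y2)
      + ((a ^ 2 + b ^ 2) - (6 / 7 * a + 2 / 7 * b) ^ 2) / 2 * l = - (19 / 147)) :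
    (6 / 7 + ε * a) * (ε * x1 + ε ^ 2 * x2 + ε ^ 3 * x3)
      + (2 / 7 + ε * b) * (ε * y1 + ε ^ 2 * y2 + ε ^ 3 * y3) + w * (ε * l) ≤ -(ε ^ 3 / 20) := by
  have hub : |6 / 7 * a + 2 / 7 * b| ≤ 2 * K := by
    refine (abs_add_le _ _).trans ?_
    rw [abs_mul, abs_mul, abs_of_pos (by norm_num : (0:ℝ) < 6 / 7),
      abs_of_pos (by norm_num : (0:ℝ) < 2 / 7)]
    linarith
  have hgb : |a ^ 2 + b ^ 2| ≤ 2 * K ^ 2 := by
    rw [abs_of_nonneg (by positivity)]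
    have t1 : a ^ 2 ≤ K ^ 2 := sq_le_sq' (abs_le.mp c1).1 (abs_le.mp c1).2
    have t2 : b ^ 2 ≤ K ^ 2 := sq_le_sq' (abs_le.mp c2).1 (abs_le.mp c2).2
    linarith
  have hws := core1 hK1 hε0 hεK hub hgb hw hw1
  have hKle : ∀ {a b : ℕ}, a ≤ b → K ^ a ≤ K ^ b := fun hab => pow_le_pow_right₀ hK1 hab
  have hR : (6 / 7 + ε * a) * (ε * x1 + ε ^ 2 * x2 + ε ^ 3 * x3)
      + (2 / 7 + ε * b) * (ε * y1 + ε ^ 2 * y2 + ε ^ 3 * y3) + w * (ε * l)
      = ε ^ 3 * (-(19 / 147)) + ε ^ 4 * (a * x3 + b * y3)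
        + ε * ((w - (1 + ε * (6 / 7 * a + 2 / 7 * b)
          + ε ^ 2 * ((a ^ 2 + b ^ 2) - (6 / 7 * a + 2 / 7 * b) ^ 2) / 2)) * l) := by
    linear_combination ε * i1 + ε ^ 2 * i2 + ε ^ 3 * i3
  rw [hR]
  generalize w - (1 + ε * (6 / 7 * a + 2 / 7 * b)
          + ε ^ 2 * ((a ^ 2 + b ^ 2) - (6 / 7 * a + 2 / 7 * b) ^ 2) / 2) = δ at hws ⊢
  have r1 : a * x3 + b * y3 ≤ 2 * K ^ 5 := by
    have t1 : |a * x3| ≤ K * K := by
      rw [abs_mul]
      exact mul_le_mul c1 c4 (abs_nonneg _) (by positivity)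
    have t2 : |b * y3| ≤ K * K := by
      rw [abs_mul]
      exact mul_le_mul c2 c5 (abs_nonneg _) (by positivity)
    have t3 : K ^ 2 ≤ K ^ 5 := hKle (by norm_num)
    have t4 := (abs_le.mp t1).2
    have t5 := (abs_le.mp t2).2
    have t6 : K * K = K ^ 2 := by ring
    linarith
  have r2 : δ * l ≤ 49 * K ^ 5 * ε ^ 3 := by
    have t1 : |δ * l| ≤ (49 * K ^ 4 * ε ^ 3) * K := by
      rw [abs_mul]
      exact mul_le_mul hws c3 (abs_nonneg _) (by positivity)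
    have := (abs_le.mp t1).2
    calc δ * l ≤ (49 * K ^ 4 * ε ^ 3) * K := this
      _ = 49 * K ^ 5 * ε ^ 3 := by ring
  have r3 : ε ^ 4 * (a * x3 + b * y3) ≤ ε ^ 4 * (2 * K ^ 5) :=
    mul_le_mul_of_nonneg_left r1 (by positivity)
  have r4 : ε * (δ * l) ≤ ε * (49 * K ^ 5 * ε ^ 3) :=
    mul_le_mul_of_nonneg_left r2 hε0.le
  have r5 : ε ^ 4 * (2 * K ^ 5) + ε * (49 * K ^ 5 * ε ^ 3) = ε ^ 3 * (51 * (ε * K ^ 5)) := by ring
  have r6 : 0 < ε ^ 3 := by positivity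
  rw [hεK] at r5
  linarith

/-- The key inequality: for small amplitude the corrector makes the transport expression
negative everywhere. -/
theorem key_ineq : ∃ ε η : ℝ, 0 < ε ∧ ε ≤ 1 ∧ 0 < η ∧ ∀ x y,
    (6 / 7 + ε * fx x y) * Zx ε x y + (2 / 7 + ε * fy x y) * Zy ε x y
      + ww ε x y * (ε * lp x y) ≤ -η := by
  obtain ⟨K, hK⟩ : ∃ K : ℝ, K = 1 + nm (dX L0) + nm (dY L0)
    + (nm (dX (dX L0)) + nm (dY (dY L0))) + nm (dX L3) + nm (dY L3) := ⟨_, rfl⟩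
  have n1 := nm_nonneg (dX L0)
  have n2 := nm_nonneg (dY L0)
  have n3 := nm_nonneg (dX (dX L0))
  have n4 := nm_nonneg (dY (dY L0))
  have n5 := nm_nonneg (dX L3)
  have n6 := nm_nonneg (dY L3)
  have hK1 : 1 ≤ K := by linarith
  have b1 : ∀ x y, |fx x y| ≤ K := fun x y => by
    unfold fx
    rw [abs_neg]
    exact (abs_SN_le _ _ _).trans (by linarith)
  have b2 : ∀ x y, |fy x y| ≤ K := fun x y => by
    unfold fy
    rw [abs_neg]
    exact (abs_SN_le _ _ _).trans (by linarith)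
  have b3 : ∀ x y, |lp x y| ≤ K := fun x y => by
    unfold lp
    rw [abs_neg]
    exact (abs_add_le _ _).trans ((add_le_add (abs_CS_le _ _ _) (abs_CS_le _ _ _)).trans
      (by linarith))
  have b4 : ∀ x y, |z3x x y| ≤ K := fun x y => by
    unfold z3x
    exact (abs_CS_le _ _ _).trans (by linarith)
  have b5 : ∀ x y, |z3y x y| ≤ K := fun x y => by
    unfold z3y
    exact (abs_CS_le _ _ _).trans (by linarith)
  have hK5 : 1 ≤ K ^ 5 := one_le_pow₀ hK1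
  obtain ⟨ε, hε⟩ : ∃ ε : ℝ, ε = 1 / (1000 * K ^ 5) := ⟨_, rfl⟩
  have hε0 : 0 < ε := by rw [hε]; positivity
  have hεK : ε * K ^ 5 = 1 / 1000 := by
    rw [hε]
    field_simp
  have hε1 : ε ≤ 1 := by
    have : ε * 1 ≤ ε * K ^ 5 := mul_le_mul_of_nonneg_left hK5 hε0.le
    linarith
  refine ⟨ε, ε ^ 3 / 20, hε0, hε1, by positivity, fun x y => ?_⟩
  have hw := ww_sq ε x y
  unfold uu gg at hw
  have i2 := I2 x y
  have i3 := I3 x y
  unfold uu at i2
  unfold uu gg at i3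
  exact core2 hK1 hε0 hεK (b1 x y) (b2 x y) (b3 x y) (b4 x y) (b5 x y) hw (ww_ge ε x y)
    (I1 x y) i2 i3

end Pool.Agent.R218.GEq
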