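import Pool.Agent.R218.GEq.Profile
import Pool.Agent.R218.GEq.Trig

namespace Pool.Agent.R218.GEq

open Set Filter Topology

/-! ### scaled trigonometric polynomials -/

/-- `c · T(κ x, κ y)` -/
noncomputable def scl (c κ : ℝ) (l : List (ℝ × ℝ × ℝ)) : List (ℝ × ℝ × ℝ) :=
  l.map fun t => (c * t.1, κ * t.2.1, κ * t.2.2)

lemma scl_cons (c κ : ℝ) (t : ℝ × ℝ × ℝ) (l : List (ℝ × ℝ × ℝ)) :
    scl c κ (t :: l) = (c * t.1, κ * t.2.1, κ * t.2.2) :: scl c κ l := by simp [scl]

lemma CS_scl (c κ : ℝ) (l : List (ℝ × ℝ × ℝ)) (x y : ℝ) :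
    CS (scl c κ l) x y = c * CS l (κ * x) (κ * y) := by
  induction l with
  | nil => simp [CS, scl]
  | cons t l ih =>
    rw [scl_cons, CS_cons, CS_cons, ih]
    have e : κ * t.2.1 * x + κ * t.2.2 * y = t.2.1 * (κ * x) + t.2.2 * (κ * y) := by ring
    simp only [e]
    ring

lemma SN_scl (c κ : ℝ) (l : List (ℝ × ℝ × ℝ)) (x y : ℝ) :
    SN (scl c κ l) x y = c * SN l (κ * x) (κ * y) := by
  induction l with
  | nil => simp [SN, scl]
  | cons t l ih =>
    rw [scl_cons, SN_cons, SN_cons, ih]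
    have e : κ * t.2.1 * x + κ * t.2.2 * y = t.2.1 * (κ * x) + t.2.2 * (κ * y) := by ring
    simp only [e]
    ring

lemma dX_scl (c κ : ℝ) (l : List (ℝ × ℝ × ℝ)) : dX (scl c κ l) = scl (c * κ) κ (dX l) := by
  unfold dX scl
  rw [List.map_map, List.map_map]
  congr 1
  funext t
  simp only [Function.comp_apply]
  congr 1
  ring

lemma dY_scl (c κ : ℝ) (l : List (ℝ × ℝ × ℝ)) : dY (scl c κ l) = scl (c * κ) κ (dY l) := by
  unfold dY scl
  rw [List.map_map, List.map_map]
  congr 1
  funext t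
  simp only [Function.comp_apply]
  congr 1
  ring

/-- trigonometric polynomials are profiles -/
lemma prof_CS (l : List (ℝ × ℝ × ℝ)) : Prof (CS l) (fun x y => -SN (dX l) x y)
    (fun x y => -SN (dY l) x y) (fun x y => -CS (dX (dX l)) x y) (fun x y => -CS (dX (dY l)) x y)
    (fun x y => -CS (dY (dY l)) x y)
    (nm l + nm (dX (dX l)) + nm (dX (dY l)) + nm (dY (dY l))) where
  cd := contDiff_CS l
  d1 := fun x y a b s => by
    refine (CS_line l x y a b s).congr_deriv ?_
    ring
  d2 := fun x y a b s => by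
    have h1 := ((SN_line (dX l) x y a b s).neg.mul_const a).add
      ((SN_line (dY l) x y a b s).neg.mul_const b)
    refine h1.congr_deriv ?_
    rw [← dX_dY l]
    ring
  bv := fun x y => (abs_CS_le l x y).trans (by
    have := nm_nonneg (dX (dX l)); have := nm_nonneg (dX (dY l)); have := nm_nonneg (dY (dY l))
    linarith)
  bxx := fun x y => by
    rw [abs_neg]
    exact (abs_CS_le _ x y).trans (by
      have := nm_nonneg l; have := nm_nonneg (dX (dY l)); have := nm_nonneg (dY (dY l))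
      linarith)
  bxy := fun x y => by
    rw [abs_neg]
    exact (abs_CS_le _ x y).trans (by
      have := nm_nonneg l; have := nm_nonneg (dX (dX l)); have := nm_nonneg (dY (dY l))
      linarith)
  byy := fun x y => by
    rw [abs_neg]
    exact (abs_CS_le _ x y).trans (by
      have := nm_nonneg l; have := nm_nonneg (dX (dX l)); have := nm_nonneg (dX (dY l))
      linarith)

/-- the direction `P = (6,2,3)/7` -/
noncomputable def PP : V3 := ![6 / 7, 2 / 7, 3 / 7]

/-! ### the smooth solution gives the speed for `d > 0` -/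

section exact

variable {P : V3} {v vx vy vxx vxy vyy : ℝ → ℝ → ℝ} {K : ℝ}

/-- If the profile solves the cell problem then the speed is `H`. -/
theorem speed_exact (h : Prof v vx vy vxx vxy vyy K) {d A H c0 F : ℝ} {f : ℝ → ℝ → ℝ}
    (hd : 0 ≤ d) (hA : 0 ≤ A) (hK : 0 ≤ K) (hc0 : 0 < c0)
    (hq : ∀ x y, c0 ≤ nrm (qv P vx vy x y)) (hF : ∀ x y, |f x y| ≤ F)
    (cell : ∀ x y, -H + max (zz h d P x y) 0 + A * f x y * P 2 = 0)
    {G : V3 → ℝ → ℝ} (hG : ViscSol d A f P G) : HasSpeed P G H := by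
  have hF0 : 0 ≤ F := (abs_nonneg _).trans (hF 0 0)
  set L : ℝ := (1 + d * (4 + 16 * K / c0)) + A * F with hL
  have hL0 : 0 ≤ L := by positivity
  have hΨ := contDiff_Psi (P := P) h.cd
  have hC : ∀ X, |Psi P v X - dotp P X| ≤ K := fun X => by
    have : Psi P v X - dotp P X = v (X 0) (X 1) := by unfold Psi; ring
    rw [this]
    exact h.bv _ _
  -- common estimate
  have est : ∀ ε X e, IsNormal (fun Y => Psi P v Y + ε * rho Y) X e →
      |-H + curvOp d (fun Y => Psi P v Y + ε * rho Y) X e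
        + A * f (X 0) (X 1) * pd (fun Y => Psi P v Y + ε * rho Y) X 2| ≤ L * |ε| := by
    intro ε X e he
    have h1 := curv_pert h hd hK hc0 hq X e he
    have h2 : pd (fun Y => Psi P v Y + ε * rho Y) X 2 = P 2 + ε * rvec X 2 := by
      rw [pd_formula h]
      simp [qv]
    rw [h2]
    have h3 : -H + curvOp d (fun Y => Psi P v Y + ε * rho Y) X e
        + A * f (X 0) (X 1) * (P 2 + ε * rvec X 2) =
        (curvOp d (fun Y => Psi P v Y + ε * rho Y) X e - max (zz h d P (X 0) (X 1)) 0)
        + A * f (X 0) (X 1) * (ε * rvec X 2) := by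
      have := cell (X 0) (X 1)
      linarith
    rw [h3]
    refine (abs_add_le _ _).trans ?_
    have h4 : |A * f (X 0) (X 1) * (ε * rvec X 2)| ≤ A * F * |ε| := by
      rw [abs_mul, abs_mul, abs_mul, abs_of_nonneg hA]
      have h5 : |rvec X 2| ≤ 1 := (abs_comp_le _ 2).trans (nrm_rvec X)
      have h6 : |ε| * |rvec X 2| ≤ |ε| := mul_le_of_le_one_right (abs_nonneg _) h5
      have h7 : A * |f (X 0) (X 1)| ≤ A * F := mul_le_mul_of_nonneg_left (hF _ _) hA
      exact mul_le_mul h7 h6 (by positivity) (by positivity)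
    calc _ ≤ (1 + d * (4 + 16 * K / c0)) * |ε| + A * F * |ε| := add_le_add h1 h4
      _ = L * |ε| := by rw [hL]; ring
  have up := upper_of hG hΨ hC (H := H) (L := L) hL0 one_pos (fun ε h0 _ X e he => by
    have := est ε X e he
    rw [abs_of_pos h0] at this
    exact (abs_le.mp this).1)
  have lo := lower_of hG hΨ hC (H := H) (L := L) hL0 one_pos (fun ε h0 _ X e he => by
    have := est (-ε) X e he
    rw [abs_neg, abs_of_pos h0] at this
    exact (abs_le.mp this).2)
  intro X
  have hb := hC X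
  rw [abs_le] at hb
  have e1 : Tendsto (fun t : ℝ => H - 2 * K / t) atTop (𝓝 (H - 0)) :=
    tendsto_const_nhds.sub (tendsto_const_nhds.div_atTop tendsto_id)
  have e2 : Tendsto (fun t : ℝ => H + 2 * K / t) atTop (𝓝 (H + 0)) :=
    tendsto_const_nhds.add (tendsto_const_nhds.div_atTop tendsto_id)
  rw [sub_zero] at e1
  rw [add_zero] at e2
  refine tendsto_of_tendsto_of_tendsto_of_le_of_le' e1 e2 ?_ ?_
  · filter_upwards [eventually_gt_atTop (0:ℝ)] with t ht
    have := up X t ht.le
    rw [le_div_iff₀ ht]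
    have e3 : (H - 2 * K / t) * t = H * t - 2 * K := by field_simp
    rw [e3]
    linarith [hb.1, hb.2]
  · filter_upwards [eventually_gt_atTop (0:ℝ)] with t ht
    have := lo X t ht.le
    rw [div_le_iff₀ ht]
    have e3 : (H + 2 * K / t) * t = H * t + 2 * K := by field_simp
    rw [e3]
    linarith [hb.1, hb.2]

end exact

/-! ### subsolutions bound the speed for `d = 0` -/

/-- A smooth profile `V` with `|P + DV| + A f P₂ ≤ H` bounds the speed from above (`d = 0`). -/
theorem speed_le {P : V3} {V Vx Vy : ℝ → ℝ → ℝ} {C A H F : ℝ} {f : ℝ → ℝ → ℝ}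
    (hcd : ContDiff ℝ 2 (fun p : ℝ × ℝ => V p.1 p.2))
    (hx : ∀ x y, HasDerivAt (fun s => V (x + s) y) (Vx x y) 0)
    (hy : ∀ x y, HasDerivAt (fun s => V x (y + s)) (Vy x y) 0)
    (hV : ∀ x y, |V x y| ≤ C) (hA : 0 ≤ A) (hF : ∀ x y, |f x y| ≤ F)
    (sub : ∀ x y, -H + nrm ![P 0 + Vx x y, P 1 + Vy x y, P 2] + A * f x y * P 2 ≤ 0)
    {G : V3 → ℝ → ℝ} (hG : ViscSol 0 A f P G) {c : ℝ} (hc : HasSpeed P G c) : c ≤ H := by
  have hF0 : 0 ≤ F := (abs_nonneg _).trans (hF 0 0)
  have hΨ := contDiff_Psi (P := P) hcd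
  have hC : ∀ X, |Psi P V X - dotp P X| ≤ C := fun X => by
    have : Psi P V X - dotp P X = V (X 0) (X 1) := by unfold Psi; ring
    rw [this]
    exact hV _ _
  set L : ℝ := 1 + A * F with hL
  have hL0 : 0 ≤ L := by positivity
  -- the gradient
  have hpd : ∀ (ε : ℝ) (X : V3), pd (fun Y => Psi P V Y + ε * rho Y) X =
      fun i => (![P 0 + Vx (X 0) (X 1), P 1 + Vy (X 0) (X 1), P 2] : V3) i + ε * rvec X i := by
    intro ε X
    funext i
    have hlin : ∀ i : Fin 3, HasDerivAt (fun s : ℝ => dotp P (X + s • (Pi.single i 1 : V3))) (P i) 0 := by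
      intro i
      have h2 : (fun s : ℝ => dotp P (X + s • (Pi.single i 1 : V3))) =
          fun s : ℝ => dotp P X + s * dotp P (Pi.single i 1) := by
        funext s
        unfold dotp
        simp only [Pi.add_apply, Pi.smul_apply, smul_eq_mul]
        ring
      rw [h2, dotp_single]
      have := ((hasDerivAt_id (0:ℝ)).mul_const (P i)).const_add (dotp P X)
      simpa using this
    have hr : HasDerivAt (fun s : ℝ => ε * rho (X + s • (Pi.single i 1 : V3))) (ε * rvec X i) 0 := by
      have := (hasDerivAt_rho X (Pi.single i 1) 0).const_mul ε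
      rw [zero_smul, add_zero, dotp_single] at this
      exact this
    unfold pd
    fin_cases i
    · have hv : HasDerivAt (fun s : ℝ => V ((X + s • (Pi.single 0 1 : V3)) 0)
          ((X + s • (Pi.single 0 1 : V3)) 1)) (Vx (X 0) (X 1)) 0 := by
        have := hx (X 0) (X 1)
        simpa using this
      exact (((hlin 0).add hv).add hr).deriv
    · have hv : HasDerivAt (fun s : ℝ => V ((X + s • (Pi.single 1 1 : V3)) 0)
          ((X + s • (Pi.single 1 1 : V3)) 1)) (Vy (X 0) (X 1)) 0 := by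
        have := hy (X 0) (X 1)
        simpa using this
      exact (((hlin 1).add hv).add hr).deriv
    · have hv : HasDerivAt (fun s : ℝ => V ((X + s • (Pi.single 2 1 : V3)) 0)
          ((X + s • (Pi.single 2 1 : V3)) 1)) 0 0 := by
        have : (fun s : ℝ => V ((X + s • (Pi.single 2 1 : V3)) 0)
          ((X + s • (Pi.single 2 1 : V3)) 1)) = fun _ => V (X 0) (X 1) := by
          funext s
          simp
        rw [this]
        exact hasDerivAt_const _ _
      have h3 := (((hlin 2).add hv).add hr).deriv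
      rw [add_zero] at h3
      exact h3
  have lo := lower_of hG hΨ hC (H := H) (L := L) hL0 one_pos (fun ε h0 _ X e he => by
    unfold curvOp
    rw [hpd, zero_mul, sub_zero, max_eq_left (nrm_nonneg _)]
    have h1 := nrm_pert (q := ![P 0 + Vx (X 0) (X 1), P 1 + Vy (X 0) (X 1), P 2]) (ε := -ε)
      (nrm_rvec X)
    rw [abs_neg, abs_of_pos h0] at h1
    have h2 := (abs_le.mp h1).2
    have h3 := sub (X 0) (X 1)
    have h4 : A * f (X 0) (X 1) * (-ε * rvec X 2) ≤ A * F * ε := by
      refine (le_abs_self _).trans ?_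
      rw [abs_mul, abs_mul, abs_mul, abs_of_nonneg hA, abs_neg, abs_of_pos h0]
      have h5 : |rvec X 2| ≤ 1 := (abs_comp_le _ 2).trans (nrm_rvec X)
      have h6 : ε * |rvec X 2| ≤ ε := mul_le_of_le_one_right h0.le h5
      have h7 : A * |f (X 0) (X 1)| ≤ A * F := mul_le_mul_of_nonneg_left (hF _ _) hA
      exact mul_le_mul h7 h6 (by positivity) (by positivity)
    have h5 : (fun i => (![P 0 + Vx (X 0) (X 1), P 1 + Vy (X 0) (X 1), P 2] : V3) i
        + -ε * rvec X i) 2 = P 2 + -ε * rvec X 2 := rfl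
    rw [h5]
    have h6 : A * f (X 0) (X 1) * (P 2 + -ε * rvec X 2) =
        A * f (X 0) (X 1) * P 2 + A * f (X 0) (X 1) * (-ε * rvec X 2) := by ring
    rw [h6, hL]
    linarith)
  have hlim := hc 0
  have e2 : Tendsto (fun t : ℝ => H + 2 * C / t) atTop (𝓝 (H + 0)) :=
    tendsto_const_nhds.add (tendsto_const_nhds.div_atTop tendsto_id)
  rw [add_zero] at e2
  refine le_of_tendsto_of_tendsto hlim e2 ?_
  filter_upwards [eventually_gt_atTop (0:ℝ)] with t ht
  have h1 := lo 0 t ht.le
  have hb := abs_le.mp (hC 0)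
  rw [div_le_iff₀ ht]
  have e3 : (H + 2 * C / t) * t = H * t + 2 * C := by field_simp
  rw [e3]
  linarith [hb.1, hb.2]

end Pool.Agent.R218.GEq
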