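import Pool.Agent.R218.GEq.Comparison

namespace Pool.Agent.R218.GEq

open Set Filter Topology

/-! ### elementary inequalities -/

lemma nrm_nonneg (p : V3) : 0 ≤ nrm p := Real.sqrt_nonneg _

lemma nrm_sq (p : V3) : nrm p ^ 2 = p 0 ^ 2 + p 1 ^ 2 + p 2 ^ 2 :=
  Real.sq_sqrt (by positivity)

lemma dotp_le (p q : V3) : dotp p q ≤ nrm p * nrm q := by
  have h1 : dotp p q ^ 2 ≤ (nrm p * nrm q) ^ 2 := by
    rw [mul_pow, nrm_sq, nrm_sq]
    unfold dotp
    nlinarith [sq_nonneg (p 0 * q 1 - p 1 * q 0), sq_nonneg (p 0 * q 2 - p 2 * q 0),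
      sq_nonneg (p 1 * q 2 - p 2 * q 1)]
  exact le_of_sq_le_sq h1 (mul_nonneg (nrm_nonneg _) (nrm_nonneg _))
where
  le_of_sq_le_sq {a b : ℝ} (h : a ^ 2 ≤ b ^ 2) (hb : 0 ≤ b) : a ≤ b := by
    exact le_of_abs_le (abs_le_of_sq_le_sq h hb)

lemma nrm_add_le (p q : V3) : nrm (fun i => p i + q i) ≤ nrm p + nrm q := by
  have h1 : nrm (fun i => p i + q i) ^ 2 ≤ (nrm p + nrm q) ^ 2 := by
    have e1 : nrm (fun i => p i + q i) ^ 2 =
        (p 0 + q 0) ^ 2 + (p 1 + q 1) ^ 2 + (p 2 + q 2) ^ 2 := nrm_sq _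
    have e2 := nrm_sq p
    have e3 := nrm_sq q
    have := dotp_le p q
    unfold dotp at this
    nlinarith
  exact le_of_abs_le (abs_le_of_sq_le_sq h1 (add_nonneg (nrm_nonneg _) (nrm_nonneg _)))

lemma nrm_smul (c : ℝ) (p : V3) : nrm (fun i => c * p i) = |c| * nrm p := by
  unfold nrm
  rw [← Real.sqrt_sq_eq_abs, ← Real.sqrt_mul (sq_nonneg c)]
  congr 1
  ring

/-- `| |q + ε r| - |q| | ≤ |ε|` for `|r| ≤ 1` -/
lemma nrm_pert {q r : V3} {ε : ℝ} (hr : nrm r ≤ 1) :
    |nrm (fun i => q i + ε * r i) - nrm q| ≤ |ε| := by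
  have h1 := nrm_add_le q (fun i => ε * r i)
  rw [nrm_smul] at h1
  have h2 := nrm_add_le (fun i => q i + ε * r i) (fun i => -ε * r i)
  rw [nrm_smul, abs_neg] at h2
  have e : (fun i => q i + ε * r i + -ε * r i) = q := by
    funext i
    ring
  rw [e] at h2
  have h3 : |ε| * nrm r ≤ |ε| := mul_le_of_le_one_right (abs_nonneg _) hr
  rw [abs_le]
  constructor <;> linarith

lemma abs_comp_le (e : V3) (i : Fin 3) : |e i| ≤ nrm e := by
  apply Real.le_sqrt_of_sq_le
  rw [sq_abs]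
  fin_cases i <;> simp <;> nlinarith [sq_nonneg (e 0), sq_nonneg (e 1), sq_nonneg (e 2)]

/-! ### derivatives of the penalization -/

lemma rho_sq (X : V3) : rho X ^ 2 = 1 + (X 0 ^ 2 + X 1 ^ 2 + X 2 ^ 2) :=
  Real.sq_sqrt (by positivity)

lemma one_le_rho (X : V3) : 1 ≤ rho X := by
  apply Real.le_sqrt_of_sq_le
  nlinarith [sq_nonneg (X 0), sq_nonneg (X 1), sq_nonneg (X 2)]

lemma hasDerivAt_rho (X e : V3) (s : ℝ) : HasDerivAt (fun s : ℝ => rho (X + s • e))
    (dotp (X + s • e) e / rho (X + s • e)) s := by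
  have h0 : ∀ i, HasDerivAt (fun s : ℝ => (X + s • e) i) (e i) s := by
    intro i
    have := ((hasDerivAt_id s).mul_const (e i)).const_add (X i)
    simpa using this
  have h1 := ((((h0 0).pow 2).add ((h0 1).pow 2)).add ((h0 2).pow 2)).const_add 1
  have h2 := h1.sqrt (by
    simp only [Pi.add_apply, Pi.pow_apply]
    positivity)
  refine h2.congr_deriv ?_
  have h3 := (rho_pos (X + s • e)).ne'
  unfold rho at h3 ⊢
  unfold dotp
  simp only [Pi.add_apply, Pi.pow_apply] at h3 ⊢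
  field_simp
  push_cast
  ring

/-- second derivative of the penalization in direction `e` -/
noncomputable def rho2 (X e : V3) : ℝ :=
  (nrm e ^ 2 - dotp X e ^ 2 / rho X ^ 2) / rho X

lemma hasDerivAt_rho' (X e : V3) (s : ℝ) :
    HasDerivAt (fun s : ℝ => dotp (X + s • e) e / rho (X + s • e)) (rho2 (X + s • e) e) s := by
  have h0 : HasDerivAt (fun s : ℝ => dotp (X + s • e) e) (nrm e ^ 2) s := by
    have h1 : (fun s : ℝ => dotp (X + s • e) e) = fun s : ℝ => dotp X e + s * nrm e ^ 2 := by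
      funext s
      rw [nrm_sq]
      unfold dotp
      simp only [Pi.add_apply, Pi.smul_apply, smul_eq_mul]
      ring
    rw [h1]
    have := ((hasDerivAt_id s).mul_const (nrm e ^ 2)).const_add (dotp X e)
    simpa using this
  have h1 := h0.div (hasDerivAt_rho X e s) (rho_pos _).ne'
  refine h1.congr_deriv ?_
  have := (rho_pos (X + s • e)).ne'
  unfold rho2
  field_simp

lemma rho2_bound (X e : V3) (he : nrm e = 1) : 0 ≤ rho2 X e ∧ rho2 X e ≤ 1 := by
  have h1 := one_le_rho X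
  have h2 := rho_sq X
  have h3 : dotp X e ^ 2 ≤ rho X ^ 2 := by
    have h4 := dotp_le X e
    have h5 := dotp_le (fun i => - X i) e
    have h6 : dotp (fun i => - X i) e = - dotp X e := by unfold dotp; ring
    have h7 : nrm (fun i => - X i) = nrm X := by
      unfold nrm
      congr 1
      ring
    rw [h6, h7, he, mul_one] at h5
    rw [he, mul_one] at h4
    have h8 : |dotp X e| ≤ nrm X := abs_le.mpr ⟨by linarith, h4⟩
    have h9 : dotp X e ^ 2 ≤ nrm X ^ 2 := by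
      rw [← sq_abs (dotp X e)]
      exact pow_le_pow_left₀ (abs_nonneg _) h8 2
    rw [nrm_sq] at h9
    linarith
  have h4 : 0 ≤ dotp X e ^ 2 / rho X ^ 2 := by positivity
  have h5 : dotp X e ^ 2 / rho X ^ 2 ≤ 1 := by
    rw [div_le_one (by positivity)]
    exact h3
  unfold rho2
  rw [he]
  constructor
  · apply div_nonneg _ (by linarith)
    linarith
  · rw [div_le_one (by linarith)]
    linarith

lemma sec_of {φ : V3 → ℝ} {X e : V3} {φ' : ℝ → ℝ} {c : ℝ}
    (h1 : ∀ s, HasDerivAt (fun s : ℝ => φ (X + s • e)) (φ' s) s) (h2 : HasDerivAt φ' c 0) :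
    sec φ X e = c := by
  unfold sec
  simp only [iteratedDeriv_succ, iteratedDeriv_zero]
  have : deriv (fun s : ℝ => φ (X + s • e)) = φ' := funext fun s => (h1 s).deriv
  rw [this]
  exact h2.deriv

/-- the unit gradient direction of the penalization -/
noncomputable def rvec (X : V3) : V3 := fun i => X i / rho X

lemma nrm_rvec (X : V3) : nrm (rvec X) ≤ 1 := by
  have h1 : rvec X = fun i => (1 / rho X) * X i := by
    funext i
    unfold rvec
    ring
  rw [h1, nrm_smul, abs_of_pos (by have := rho_pos X; positivity), one_div,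
    inv_mul_le_iff₀ (rho_pos X), mul_one]
  unfold nrm rho
  apply Real.sqrt_le_sqrt
  linarith

lemma dotp_single (X : V3) (i : Fin 3) : dotp X (Pi.single i 1) = X i := by
  fin_cases i <;> simp [dotp]

lemma nrm_single (i : Fin 3) : nrm (Pi.single i 1 : V3) = 1 := by
  fin_cases i <;> simp [nrm]

/-! ### profiles -/

/-- A smooth profile `v` on the plane with first and second derivatives along lines. -/
structure Prof (v vx vy vxx vxy vyy : ℝ → ℝ → ℝ) (K : ℝ) : Prop where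
  cd : ContDiff ℝ 2 (fun p : ℝ × ℝ => v p.1 p.2)
  d1 : ∀ x y a b s, HasDerivAt (fun s => v (x + s * a) (y + s * b))
    (vx (x + s * a) (y + s * b) * a + vy (x + s * a) (y + s * b) * b) s
  d2 : ∀ x y a b s, HasDerivAt (fun s => vx (x + s * a) (y + s * b) * a
      + vy (x + s * a) (y + s * b) * b)
    (vxx (x + s * a) (y + s * b) * a ^ 2 + 2 * vxy (x + s * a) (y + s * b) * (a * b)
      + vyy (x + s * a) (y + s * b) * b ^ 2) s
  bv : ∀ x y, |v x y| ≤ K
  bxx : ∀ x y, |vxx x y| ≤ K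
  bxy : ∀ x y, |vxy x y| ≤ K
  byy : ∀ x y, |vyy x y| ≤ K

/-- the space profile `P·X + v(x)` -/
def Psi (P : V3) (v : ℝ → ℝ → ℝ) (X : V3) : ℝ := dotp P X + v (X 0) (X 1)

lemma contDiff_Psi {P : V3} {v : ℝ → ℝ → ℝ} (hv : ContDiff ℝ 2 (fun p : ℝ × ℝ => v p.1 p.2)) :
    ContDiff ℝ 2 (Psi P v) := by
  unfold Psi dotp
  have h1 : ContDiff ℝ 2 (fun X : V3 => v (X 0) (X 1)) :=
    hv.comp (f := fun X : V3 => (X 0, X 1)) (by fun_prop)
  fun_prop

/-- the gradient vector `(P₀+v_x, P₁+v_y, P₂)` -/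
def qv (P : V3) (vx vy : ℝ → ℝ → ℝ) (x y : ℝ) : V3 := ![P 0 + vx x y, P 1 + vy x y, P 2]

section
variable {P : V3} {v vx vy vxx vxy vyy : ℝ → ℝ → ℝ} {K : ℝ}
  (h : Prof v vx vy vxx vxy vyy K)

include h

lemma line1 (ε : ℝ) (X e : V3) (s : ℝ) :
    HasDerivAt (fun s : ℝ => Psi P v (X + s • e) + ε * rho (X + s • e))
      (dotp P e + (vx (X 0 + s * e 0) (X 1 + s * e 1) * e 0
        + vy (X 0 + s * e 0) (X 1 + s * e 1) * e 1) + ε * (dotp (X + s • e) e / rho (X + s • e))) s := by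
  have h1 : HasDerivAt (fun s : ℝ => dotp P (X + s • e)) (dotp P e) s := by
    have h2 : (fun s : ℝ => dotp P (X + s • e)) = fun s : ℝ => dotp P X + s * dotp P e := by
      funext s
      unfold dotp
      simp only [Pi.add_apply, Pi.smul_apply, smul_eq_mul]
      ring
    rw [h2]
    have := ((hasDerivAt_id s).mul_const (dotp P e)).const_add (dotp P X)
    simpa using this
  exact (h1.add (h.d1 (X 0) (X 1) (e 0) (e 1) s)).add ((hasDerivAt_rho X e s).const_mul ε)

lemma pd_formula (ε : ℝ) (X : V3) :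
    pd (fun Y => Psi P v Y + ε * rho Y) X = fun i => qv P vx vy (X 0) (X 1) i + ε * rvec X i := by
  funext i
  unfold pd
  rw [(line1 h ε X (Pi.single i 1) 0).deriv, zero_smul, add_zero, dotp_single, dotp_single]
  unfold rvec qv
  fin_cases i <;> simp

lemma sec_formula (ε : ℝ) (X e : V3) :
    sec (fun Y => Psi P v Y + ε * rho Y) X e = (vxx (X 0) (X 1) * e 0 ^ 2
      + 2 * vxy (X 0) (X 1) * (e 0 * e 1) + vyy (X 0) (X 1) * e 1 ^ 2) + ε * rho2 X e := by
  have h2 := ((h.d2 (X 0) (X 1) (e 0) (e 1) 0).const_add (dotp P e)).add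
    ((hasDerivAt_rho' X e 0).const_mul ε)
  have h3 := sec_of (φ := fun Y => Psi P v Y + ε * rho Y) (fun s => line1 h ε X e s) h2
  rw [h3]
  simp

/-- the unperturbed curvature expression -/
noncomputable def zz (_ : Prof v vx vy vxx vxy vyy K) (d : ℝ) (P : V3) (x y : ℝ) : ℝ :=
  nrm (qv P vx vy x y) - d * ((vxx x y + vyy x y) -
    (vxx x y * (P 0 + vx x y) ^ 2 + 2 * vxy x y * ((P 0 + vx x y) * (P 1 + vy x y))
      + vyy x y * (P 1 + vy x y) ^ 2) / nrm (qv P vx vy x y) ^ 2)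

/-- perturbation estimate for the curvature operator -/
lemma curv_pert {d c0 ε : ℝ} (hd : 0 ≤ d) (hK : 0 ≤ K) (hc0 : 0 < c0)
    (hq : ∀ x y, c0 ≤ nrm (qv P vx vy x y)) (X e : V3)
    (he : IsNormal (fun Y => Psi P v Y + ε * rho Y) X e) :
    |curvOp d (fun Y => Psi P v Y + ε * rho Y) X e - max (zz h d P (X 0) (X 1)) 0| ≤
      (1 + d * (4 + 16 * K / c0)) * |ε| := by
  obtain ⟨he1, he2⟩ := he
  rw [pd_formula h] at he2
  unfold curvOp
  rw [pd_formula h, sec_formula h, sec_formula h, sec_formula h, sec_formula h]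
  set q := qv P vx vy (X 0) (X 1) with hqdef
  set p : V3 := fun i => q i + ε * rvec X i with hp
  set w := nrm q with hw
  have hwc : c0 ≤ w := hq _ _
  have hw0 : 0 < w := lt_of_lt_of_le hc0 hwc
  have hpw : |nrm p - w| ≤ |ε| := nrm_pert (nrm_rvec X)
  refine (abs_max_sub_max_le_abs _ _ _).trans ?_
  -- bounds on `e - q/w`
  have hei : ∀ i, |e i| ≤ 1 := fun i => he1 ▸ abs_comp_le e i
  have hqi : ∀ i, |q i / w| ≤ 1 := fun i => by
    rw [abs_div, abs_of_pos hw0, div_le_one hw0]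
    exact abs_comp_le q i
  have hdiff : ∀ i, |e i - q i / w| ≤ 2 * |ε| / c0 := by
    intro i
    have h1 : w * (e i - q i / w) = (w - nrm p) * e i + ε * rvec X i := by
      have h2 := he2 i
      have h3 : w * (q i / w) = q i := by field_simp
      rw [mul_sub, h3, sub_mul, ← h2]
      simp only [hp]
      ring
    have h4 : |w * (e i - q i / w)| ≤ 2 * |ε| := by
      rw [h1]
      refine (abs_add_le _ _).trans ?_
      rw [abs_mul, abs_mul]
      have h5 : |w - nrm p| * |e i| ≤ |ε| * 1 := by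
        rw [abs_sub_comm]
        exact mul_le_mul hpw (hei i) (abs_nonneg _) (abs_nonneg _)
      have h6 : |ε| * |rvec X i| ≤ |ε| * 1 :=
        mul_le_mul_of_nonneg_left ((abs_comp_le _ i).trans (nrm_rvec X)) (abs_nonneg _)
      linarith
    rw [abs_mul, abs_of_pos hw0] at h4
    rw [le_div_iff₀ hc0]
    have := abs_nonneg (e i - q i / w)
    nlinarith
  have hprod : ∀ i j, |e i * e j - q i / w * (q j / w)| ≤ 4 * |ε| / c0 := by
    intro i j
    have h1 : e i * e j - q i / w * (q j / w) = (e i - q i / w) * e j + q i / w * (e j - q j / w) := by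
      ring
    rw [h1]
    refine (abs_add_le _ _).trans ?_
    rw [abs_mul, abs_mul]
    have h2 : |e i - q i / w| * |e j| ≤ 2 * |ε| / c0 * 1 :=
      mul_le_mul (hdiff i) (hei j) (abs_nonneg _) (by positivity)
    have h3 : |q i / w| * |e j - q j / w| ≤ 1 * (2 * |ε| / c0) :=
      mul_le_mul (hqi i) (hdiff j) (abs_nonneg _) zero_le_one
    have h4 : 4 * |ε| / c0 = 2 * |ε| / c0 * 1 + 1 * (2 * |ε| / c0) := by ring
    linarith
  -- second derivatives
  have n0 := rho2_bound X _ (nrm_single 0)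
  have n1 := rho2_bound X _ (nrm_single 1)
  have n2 := rho2_bound X _ (nrm_single 2)
  have ne := rho2_bound X e he1
  set m00 := vxx (X 0) (X 1)
  set m01 := vxy (X 0) (X 1)
  set m11 := vyy (X 0) (X 1)
  have b00 : |m00| ≤ K := h.bxx _ _
  have b01 : |m01| ≤ K := h.bxy _ _
  have b11 : |m11| ≤ K := h.byy _ _
  have q0 : q 0 = P 0 + vx (X 0) (X 1) := rfl
  have q1 : q 1 = P 1 + vy (X 0) (X 1) := rfl
  have hz : zz h d P (X 0) (X 1) = w - d * ((m00 + m11) - (m00 * (q 0 / w * (q 0 / w))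
      + 2 * m01 * (q 0 / w * (q 1 / w)) + m11 * (q 1 / w * (q 1 / w)))) := by
    unfold zz
    rw [← hqdef, ← hw, ← q0, ← q1]
    field_simp
    simp only [m00, m01, m11]
    ring
  rw [hz]
  have s00 : (Pi.single 0 1 : V3) 0 = 1 := by simp
  have s01 : (Pi.single 0 1 : V3) 1 = 0 := by simp
  have s10 : (Pi.single 1 1 : V3) 0 = 0 := by simp
  have s11 : (Pi.single 1 1 : V3) 1 = 1 := by simp
  have s20 : (Pi.single 2 1 : V3) 0 = 0 := by simp
  have s21 : (Pi.single 2 1 : V3) 1 = 0 := by simp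
  rw [s00, s01, s10, s11, s20, s21]
  have hexp : nrm p - d * (m00 * 1 ^ 2 + 2 * m01 * (1 * 0) + m11 * 0 ^ 2 + ε * rho2 X (Pi.single 0 1) +
      (m00 * 0 ^ 2 + 2 * m01 * (0 * 1) + m11 * 1 ^ 2 + ε * rho2 X (Pi.single 1 1)) +
      (m00 * 0 ^ 2 + 2 * m01 * (0 * 0) + m11 * 0 ^ 2 + ε * rho2 X (Pi.single 2 1)) -
      (m00 * e 0 ^ 2 + 2 * m01 * (e 0 * e 1) + m11 * e 1 ^ 2 + ε * rho2 X e)) -
      (w - d * ((m00 + m11) - (m00 * (q 0 / w * (q 0 / w))
      + 2 * m01 * (q 0 / w * (q 1 / w)) + m11 * (q 1 / w * (q 1 / w))))) =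
      (nrm p - w) - d * (ε * (rho2 X (Pi.single 0 1) + rho2 X (Pi.single 1 1)
        + rho2 X (Pi.single 2 1) - rho2 X e)) + d * (m00 * (e 0 * e 0 - q 0 / w * (q 0 / w))
        + 2 * (m01 * (e 0 * e 1 - q 0 / w * (q 1 / w))) + m11 * (e 1 * e 1 - q 1 / w * (q 1 / w))) := by
    ring
  rw [hexp]
  have t1 : |d * (ε * (rho2 X (Pi.single 0 1) + rho2 X (Pi.single 1 1)
        + rho2 X (Pi.single 2 1) - rho2 X e))| ≤ d * (4 * |ε|) := by
    rw [abs_mul, abs_of_nonneg hd, abs_mul]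
    apply mul_le_mul_of_nonneg_left _ hd
    rw [mul_comm]
    apply mul_le_mul_of_nonneg_right _ (abs_nonneg _)
    rw [abs_le]
    constructor <;> linarith [n0.1, n0.2, n1.1, n1.2, n2.1, n2.2, ne.1, ne.2]
  have t2 : |d * (m00 * (e 0 * e 0 - q 0 / w * (q 0 / w))
        + 2 * (m01 * (e 0 * e 1 - q 0 / w * (q 1 / w))) + m11 * (e 1 * e 1 - q 1 / w * (q 1 / w)))|
      ≤ d * (16 * K / c0 * |ε|) := by
    rw [abs_mul, abs_of_nonneg hd]
    apply mul_le_mul_of_nonneg_left _ hd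
    have u1 : |m00 * (e 0 * e 0 - q 0 / w * (q 0 / w))| ≤ K * (4 * |ε| / c0) := by
      rw [abs_mul]
      exact mul_le_mul b00 (hprod 0 0) (abs_nonneg _) hK
    have u2 : |m01 * (e 0 * e 1 - q 0 / w * (q 1 / w))| ≤ K * (4 * |ε| / c0) := by
      rw [abs_mul]
      exact mul_le_mul b01 (hprod 0 1) (abs_nonneg _) hK
    have u3 : |m11 * (e 1 * e 1 - q 1 / w * (q 1 / w))| ≤ K * (4 * |ε| / c0) := by
      rw [abs_mul]
      exact mul_le_mul b11 (hprod 1 1) (abs_nonneg _) hK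
    refine (abs_add_le _ _).trans ?_
    have u4 : |m00 * (e 0 * e 0 - q 0 / w * (q 0 / w))
        + 2 * (m01 * (e 0 * e 1 - q 0 / w * (q 1 / w)))| ≤ K * (4 * |ε| / c0) + 2 * (K * (4 * |ε| / c0)) := by
      refine (abs_add_le _ _).trans (add_le_add u1 ?_)
      rw [abs_mul, abs_of_pos (by norm_num : (0:ℝ) < 2)]
      linarith
    have u5 : 16 * K / c0 * |ε| = K * (4 * |ε| / c0) + 2 * (K * (4 * |ε| / c0)) + K * (4 * |ε| / c0) := by
      ring
    linarith
  calc |nrm p - w - d * (ε * (rho2 X (Pi.single 0 1) + rho2 X (Pi.single 1 1)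
        + rho2 X (Pi.single 2 1) - rho2 X e)) + d * (m00 * (e 0 * e 0 - q 0 / w * (q 0 / w))
        + 2 * (m01 * (e 0 * e 1 - q 0 / w * (q 1 / w))) + m11 * (e 1 * e 1 - q 1 / w * (q 1 / w)))|
      ≤ |nrm p - w - d * (ε * (rho2 X (Pi.single 0 1) + rho2 X (Pi.single 1 1)
        + rho2 X (Pi.single 2 1) - rho2 X e))| + d * (16 * K / c0 * |ε|) :=
        (abs_add_le _ _).trans (add_le_add le_rfl t2)
    _ ≤ (|ε| + d * (4 * |ε|)) + d * (16 * K / c0 * |ε|) := by
        refine add_le_add ((abs_sub _ _).trans (add_le_add hpw t1)) le_rfl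
    _ = _ := by ring

end

end Pool.Agent.R218.GEq
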